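import Pool.Graph.R_pool_sql_team_seeded_efc1946e.K1H79.SX.Cmp
import Pool.Graph.R_pool_sql_team_seeded_3997aac3.Q122.TF.Ev2

set_option autoImplicit false

/-!
# Integers with bounded conjugates in the cosets of an ideal
-/

namespace Pool.Agent.H62.GX

open NumberField Finset Pool.Agent.TH847.LG NumberField.InfinitePlace IntermediateField
open scoped nonZeroDivisors

variable {E : Type} [Field E] [NumberField E]

/-- the integers of an ideal with conjugates at most `X` -/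
def box (I : Ideal (𝓞 E)) (X : ℝ) : Set (𝓞 E) :=
  {α | α ∈ I ∧ ∀ w : InfinitePlace E, w (α : E) ≤ X}

theorem box_finite (I : Ideal (𝓞 E)) (X : ℝ) : (box I X).Finite := by
  have h1 := NumberField.Embeddings.finite_of_norm_le E ℂ X
  refine Set.Finite.of_finite_image (f := fun α : 𝓞 E => (α : E)) (h1.subset ?_) ?_
  · rintro _ ⟨α, ⟨-, hα⟩, rfl⟩
    refine ⟨RingOfIntegers.isIntegral_coe α, fun φ => ?_⟩
    have := hα (InfinitePlace.mk φ)
    rwa [InfinitePlace.apply] at this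
  · intro a _ b _ h
    exact RingOfIntegers.coe_injective h

/-- the number of integers of an ideal with conjugates at most `X` -/
noncomputable def nb (I : Ideal (𝓞 E)) (X : ℝ) : ℕ := (box I X).ncard

theorem nb_mono (I : Ideal (𝓞 E)) {X Y : ℝ} (h : X ≤ Y) : nb I X ≤ nb I Y :=
  Set.ncard_le_ncard (fun _ hα => ⟨hα.1, fun w => (hα.2 w).trans h⟩) (box_finite I Y)

/-- different integers differ by at least one at some place -/
theorem exists_place_one_le {α : 𝓞 E} (hα : α ≠ 0) : ∃ w : InfinitePlace E, 1 ≤ w (α : E) := by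
  by_contra h
  push Not at h
  obtain ⟨w⟩ : Nonempty (InfinitePlace E) := inferInstance
  exact absurd (InfinitePlace.one_le_of_lt_one (w := w) hα fun z _ => h z) (not_le.2 (h w))

theorem nb_le {e : ℕ} (he : Module.finrank ℚ E = e) (I : Ideal (𝓞 E)) {X : ℝ} (hX : 0 ≤ X) :
    (nb I X : ℝ) ≤ (4 * X + 5) ^ (2 * e) := by
  classical
  set M : ℤ := ⌊2 * X⌋ + 1 with hM
  have hM0 : 0 ≤ M := by
    have : 0 ≤ ⌊2 * X⌋ := Int.floor_nonneg.2 (by linarith)
    omega
  let T : Finset (InfinitePlace E → ℤ × ℤ) :=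
    Fintype.piFinset fun _ => (Finset.Icc (-M) M) ×ˢ (Finset.Icc (-M) M)
  let f : 𝓞 E → (InfinitePlace E → ℤ × ℤ) := fun α w =>
    (⌊2 * (w.embedding (α : E)).re⌋, ⌊2 * (w.embedding (α : E)).im⌋)
  have hfl : ∀ x : ℝ, |x| ≤ X → ⌊2 * x⌋ ∈ Finset.Icc (-M) M := by
    intro x hx
    have h1 := abs_le.1 hx
    rw [Finset.mem_Icc, hM]
    constructor
    · have h2 : (-(⌊2 * X⌋ + 1 : ℤ) : ℝ) ≤ 2 * x := by
        have := Int.lt_floor_add_one (2 * X)
        push_cast
        linarith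
      exact Int.le_floor.2 (by push_cast at h2 ⊢; linarith)
    · have h2 : ⌊2 * x⌋ ≤ ⌊2 * X⌋ := Int.floor_le_floor (by linarith)
      omega
  have hmaps : ∀ α ∈ box I X, f α ∈ T := by
    intro α hα
    rw [Fintype.mem_piFinset]
    intro w
    have h1 := hα.2 w
    rw [← InfinitePlace.norm_embedding_eq] at h1
    rw [Finset.mem_product]
    exact ⟨hfl _ ((Complex.abs_re_le_norm _).trans h1), hfl _ ((Complex.abs_im_le_norm _).trans h1)⟩
  have hinj : Set.InjOn f (box I X) := by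
    intro α _ β _ hab
    by_contra hne
    obtain ⟨w, hw⟩ := exists_place_one_le (sub_ne_zero.2 hne)
    rw [← InfinitePlace.norm_embedding_eq] at hw
    have h1 := congrFun hab w
    simp only [f, Prod.mk.injEq] at h1
    have h2 : |(w.embedding ((α - β : 𝓞 E) : E)).re| < 1 / 2 := by
      have := Int.abs_sub_lt_one_of_floor_eq_floor h1.1
      push_cast
      rw [map_sub, Complex.sub_re]
      rw [← mul_sub, abs_mul, abs_two] at this
      linarith
    have h3 : |(w.embedding ((α - β : 𝓞 E) : E)).im| < 1 / 2 := by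
      have := Int.abs_sub_lt_one_of_floor_eq_floor h1.2
      push_cast
      rw [map_sub, Complex.sub_im]
      rw [← mul_sub, abs_mul, abs_two] at this
      linarith
    have h4 := Complex.norm_le_abs_re_add_abs_im (w.embedding ((α - β : 𝓞 E) : E))
    linarith
  have h1 : nb I X ≤ T.card := by
    have h2 := Set.ncard_le_ncard_of_injOn f (t := (T : Set (InfinitePlace E → ℤ × ℤ))) hmaps hinj
      (Finset.finite_toSet T)
    rwa [Set.ncard_coe_finset] at h2
  have h2 : T.card = ((2 * M + 1).toNat ^ 2) ^ Fintype.card (InfinitePlace E) := by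
    change (Fintype.piFinset fun _ : InfinitePlace E =>
      (Finset.Icc (-M) M) ×ˢ (Finset.Icc (-M) M)).card = _
    rw [Fintype.card_piFinset, Finset.prod_const, Finset.card_product, Int.card_Icc,
      Finset.card_univ]
    congr 1
    rw [show M + 1 - -M = 2 * M + 1 by ring, sq]
  have h3 : ((2 * M + 1).toNat : ℝ) ≤ 4 * X + 5 := by
    have h4 : ((2 * M + 1).toNat : ℤ) = 2 * M + 1 := Int.toNat_of_nonneg (by omega)
    have h5 : (((2 * M + 1).toNat : ℤ) : ℝ) = 2 * M + 1 := by rw [h4]; push_cast; ring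
    have h6 : ((2 * M + 1).toNat : ℝ) = 2 * M + 1 := by exact_mod_cast h5
    rw [h6, hM]
    have := Int.floor_le (2 * X)
    push_cast
    linarith
  have h4 : Fintype.card (InfinitePlace E) ≤ e := by
    rw [← he, ← NumberField.InfinitePlace.card_add_two_mul_card_eq_rank,
      NumberField.InfinitePlace.card_eq_nrRealPlaces_add_nrComplexPlaces]
    omega
  calc (nb I X : ℝ) ≤ (T.card : ℝ) := by exact_mod_cast h1
    _ = (((2 * M + 1).toNat : ℝ) ^ 2) ^ Fintype.card (InfinitePlace E) := by rw [h2]; push_cast; rfl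
    _ ≤ ((4 * X + 5) ^ 2) ^ Fintype.card (InfinitePlace E) := by gcongr
    _ ≤ ((4 * X + 5) ^ 2) ^ e := by
        apply pow_le_pow_right₀ _ h4
        nlinarith
    _ = (4 * X + 5) ^ (2 * e) := by rw [← pow_mul]

/-- every integer is congruent modulo an ideal to a small one -/
theorem cover {e : ℕ} (he : Module.finrank ℚ E = e) (I : Ideal (𝓞 E)) (hI : I ≠ ⊥) (N : ℕ)
    (hN : 2 ^ e * √|(discr E : ℝ)| < N) {T H : ℝ} (hT : 0 ≤ T) (hH : 1 ≤ H)
    (hNT : (N : ℝ) * Ideal.absNorm I ≤ T ^ e) (hprim : ∃ a : 𝓞 E, ℚ⟮(a : E)⟯ = ⊤ ∧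
      ∀ w : InfinitePlace E, w (a : E) ≤ H) (x : 𝓞 E) :
    ∃ b ∈ I, ∀ w : InfinitePlace E, w ((x - b : 𝓞 E) : E) ≤ e * T * H ^ (e - 1) := by
  have he0 : e ≠ 0 := by rw [← he]; exact (Module.finrank_pos (R := ℚ) (M := E)).ne'
  obtain ⟨a, haI, ha0, haw⟩ := mink he ⟨I, mem_nonZeroDivisors_of_ne_zero hI⟩ N hN
  have haE : (a : E) ≠ 0 := by exact_mod_cast ha0
  have haT : ∀ w : InfinitePlace E, w (a : E) ≤ T := by
    intro w
    have h1 := (haw w).le.trans hNT
    exact le_of_pow_le_pow_left₀ he0 hT h1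
  obtain ⟨θ, hθ, hθw⟩ := hprim
  have hint : IsIntegral ℚ (θ : E) := Algebra.IsIntegral.isIntegral _
  have htop : Algebra.adjoin ℚ {(θ : E)} = ⊤ := by
    rw [← IntermediateField.adjoin_simple_toSubalgebra_of_isAlgebraic hint.isAlgebraic, hθ]
    rfl
  let pb : PowerBasis ℚ E := PowerBasis.ofAdjoinEqTop' hint htop
  have hgen : pb.gen = θ := PowerBasis.ofAdjoinEqTop'_gen hint htop
  have hdim : pb.dim = e := by rw [← pb.finrank, he]
  set q : Fin pb.dim → ℚ := fun i => pb.basis.repr ((x : E) / a) i with hq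
  have hsum : (x : E) / a = ∑ i, (q i : E) * (θ : E) ^ (i : ℕ) := by
    have h1 := pb.basis.sum_repr ((x : E) / a)
    rw [← h1]
    refine Finset.sum_congr rfl fun i _ => ?_
    rw [pb.basis_eq_pow, hgen, Algebra.smul_def, hq]
    simp
  refine ⟨a * ∑ i : Fin pb.dim, ((⌊q i⌋ : ℤ) : 𝓞 E) * θ ^ (i : ℕ), I.mul_mem_right _ haI, ?_⟩
  intro w
  have hx : (x : E) = a * ∑ i, (q i : E) * (θ : E) ^ (i : ℕ) := by
    rw [← hsum]
    field_simp
  have e1 : ((x - a * ∑ i : Fin pb.dim, ((⌊q i⌋ : ℤ) : 𝓞 E) * θ ^ (i : ℕ) : 𝓞 E) : E) =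
      a * ∑ i : Fin pb.dim, ((Int.fract (q i) : ℚ) : E) * (θ : E) ^ (i : ℕ) := by
    have e2 : ((x - a * ∑ i : Fin pb.dim, ((⌊q i⌋ : ℤ) : 𝓞 E) * θ ^ (i : ℕ) : 𝓞 E) : E) =
        (x : E) - (a : E) * ∑ i : Fin pb.dim, ((⌊q i⌋ : ℤ) : E) * (θ : E) ^ (i : ℕ) := by
      simp only [map_sub, map_mul, map_sum, map_pow, map_intCast]
    rw [e2, hx, ← mul_sub, ← Finset.sum_sub_distrib]
    congr 1
    refine Finset.sum_congr rfl fun i _ => ?_
    rw [← sub_mul]
    congr 1
    rw [Int.fract]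
    push_cast
    ring
  rw [e1, map_mul]
  have h2 : w (∑ i : Fin pb.dim, ((Int.fract (q i) : ℚ) : E) * (θ : E) ^ (i : ℕ)) ≤
      e * H ^ (e - 1) := by
    rw [← InfinitePlace.norm_embedding_eq, map_sum]
    refine (norm_sum_le _ _).trans ?_
    have h3 : ∀ i ∈ (Finset.univ : Finset (Fin pb.dim)),
        ‖w.embedding (((Int.fract (q i) : ℚ) : E) * (θ : E) ^ (i : ℕ))‖ ≤ H ^ (e - 1) := by
      intro i _
      rw [map_mul, norm_mul, map_pow, norm_pow, map_ratCast]
      have h4 : ‖((Int.fract (q i) : ℚ) : ℂ)‖ ≤ 1 := by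
        rw [← Complex.ofReal_ratCast, Complex.norm_real, Real.norm_eq_abs]
        have h5 : (0 : ℝ) ≤ ((Int.fract (q i) : ℚ) : ℝ) := by exact_mod_cast Int.fract_nonneg _
        rw [abs_of_nonneg h5]
        exact_mod_cast (Int.fract_lt_one (q i)).le
      have h5 : ‖w.embedding (θ : E)‖ ≤ H := by
        rw [InfinitePlace.norm_embedding_eq]
        exact hθw w
      have h6 : ‖w.embedding (θ : E)‖ ^ (i : ℕ) ≤ H ^ (e - 1) := by
        calc ‖w.embedding (θ : E)‖ ^ (i : ℕ) ≤ H ^ (i : ℕ) :=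
              pow_le_pow_left₀ (norm_nonneg _) h5 _
          _ ≤ H ^ (e - 1) := pow_le_pow_right₀ hH (by have := i.2; omega)
      calc _ ≤ 1 * H ^ (e - 1) := mul_le_mul h4 h6 (by positivity) (by norm_num)
        _ = _ := one_mul _
    refine (Finset.sum_le_card_nsmul _ _ _ h3).trans ?_
    rw [nsmul_eq_mul, Finset.card_univ, Fintype.card_fin, hdim]
  calc w (a : E) * w (∑ i : Fin pb.dim, ((Int.fract (q i) : ℚ) : E) * (θ : E) ^ (i : ℕ))
      ≤ T * (e * H ^ (e - 1)) := mul_le_mul (haT w) h2 (apply_nonneg _ _) hT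
    _ = e * T * H ^ (e - 1) := by ring

/-- counting in cosets -/
theorem nb_coset (I : Ideal (𝓞 E)) (hI : I ≠ ⊥) {R : ℝ}
    (hR : ∀ x : 𝓞 E, ∃ b ∈ I, ∀ w : InfinitePlace E, w ((x - b : 𝓞 E) : E) ≤ R) (X : ℝ) :
    nb (⊤ : Ideal (𝓞 E)) X ≤ Ideal.absNorm I * nb I (X + R) := by
  classical
  choose b hbI hbw using hR
  have hfin : Finite (𝓞 E ⧸ I) := Ideal.finiteQuotientOfFreeOfNeBot I hI
  let r : 𝓞 E ⧸ I → 𝓞 E := fun κ => Quotient.out κ - b (Quotient.out κ)
  have hr : ∀ κ, Ideal.Quotient.mk I (r κ) = κ := by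
    intro κ
    change Ideal.Quotient.mk I (Quotient.out κ - b (Quotient.out κ)) = κ
    rw [map_sub, Ideal.Quotient.eq_zero_iff_mem.2 (hbI _), sub_zero]
    exact Quotient.out_eq κ
  have hfb : Finite (box I (X + R)) := (box_finite I (X + R)).to_subtype
  have hft : Finite (box (⊤ : Ideal (𝓞 E)) X) := (box_finite _ X).to_subtype
  have h1 : Nat.card (box (⊤ : Ideal (𝓞 E)) X) ≤
      Nat.card ((𝓞 E ⧸ I) × (box I (X + R))) := by
    refine Nat.card_le_card_of_injective
      (fun α => (Ideal.Quotient.mk I α.1, ⟨α.1 - r (Ideal.Quotient.mk I α.1), ?_, ?_⟩)) ?_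
    · rw [← Ideal.Quotient.eq_zero_iff_mem, map_sub, hr, sub_self]
    · intro w
      have e2 : ((α.1 - r (Ideal.Quotient.mk I α.1) : 𝓞 E) : E) =
          (α.1 : E) - ((r (Ideal.Quotient.mk I α.1) : 𝓞 E) : E) := map_sub _ _ _
      rw [e2, ← InfinitePlace.norm_embedding_eq, map_sub]
      refine (norm_sub_le _ _).trans ?_
      rw [InfinitePlace.norm_embedding_eq, InfinitePlace.norm_embedding_eq]
      exact add_le_add (α.2.2 w) (hbw (Quotient.out (Ideal.Quotient.mk I α.1)) w)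
    · intro α β h
      have h1 : Ideal.Quotient.mk I α.1 = Ideal.Quotient.mk I β.1 := congrArg Prod.fst h
      have h2 : α.1 - r (Ideal.Quotient.mk I α.1) = β.1 - r (Ideal.Quotient.mk I β.1) :=
        congrArg (fun z => z.2.1) h
      rw [h1] at h2
      exact Subtype.ext (sub_left_injective h2)
  rw [Nat.card_prod] at h1
  have h2 : Nat.card (𝓞 E ⧸ I) = Ideal.absNorm I := by
    rw [Ideal.absNorm_apply, Submodule.cardQuot_apply]
  rw [h2] at h1
  exact h1

/-- there are many integers in a large box -/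
theorem le_nb (I : Ideal (𝓞 E)) (hI : I ≠ ⊥) {R : ℝ}
    (hR : ∀ x : 𝓞 E, ∃ b ∈ I, ∀ w : InfinitePlace E, w ((x - b : 𝓞 E) : E) ≤ R) :
    Ideal.absNorm I ≤ nb (⊤ : Ideal (𝓞 E)) R := by
  classical
  choose b hbI hbw using hR
  have hfin : Finite (𝓞 E ⧸ I) := Ideal.finiteQuotientOfFreeOfNeBot I hI
  have hft : Finite (box (⊤ : Ideal (𝓞 E)) R) := (box_finite _ R).to_subtype
  have h1 : Nat.card (𝓞 E ⧸ I) ≤ Nat.card (box (⊤ : Ideal (𝓞 E)) R) := by
    refine Nat.card_le_card_of_injective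
      (fun κ => (⟨Quotient.out κ - b (Quotient.out κ), trivial, hbw _⟩ :
        box (⊤ : Ideal (𝓞 E)) R)) ?_
    intro κ κ' h
    have h2 : Quotient.out κ - b (Quotient.out κ) = Quotient.out κ' - b (Quotient.out κ') :=
      congrArg Subtype.val h
    have h3 : ∀ κ : 𝓞 E ⧸ I, Ideal.Quotient.mk I (Quotient.out κ - b (Quotient.out κ)) = κ := by
      intro κ
      rw [map_sub, Ideal.Quotient.eq_zero_iff_mem.2 (hbI _), sub_zero]
      exact Quotient.out_eq κ
    rw [← h3 κ, h2, h3]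
  rw [Ideal.absNorm_apply, Submodule.cardQuot_apply]
  exact h1

end Pool.Agent.H62.GX
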