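import Pool.Agent.H62.GX.NoElt

set_option autoImplicit false

/-!
# The small prime inequality with primes of a subfield
-/

namespace Pool.Agent.H62.GX

open NumberField Finset Pool.Agent.TH847.LS Pool.Agent.TH847.LG Pool.Agent.Q122.TF
  NumberField.InfinitePlace IntermediateField
open scoped Classical nonZeroDivisors

variable {E K : Type} [Field E] [NumberField E] [Field K] [NumberField K] [Algebra E K]

theorem finrank_int : Module.finrank (𝓞 E) (𝓞 K) = Module.finrank E K :=
  (IsFractionRing.finrank_eq (𝓞 E) E (𝓞 K) K).symm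

theorem coe_intNorm (z : 𝓞 K) :
    ((Algebra.intNorm (𝓞 E) (𝓞 K) z : 𝓞 E) : E) = Algebra.norm E (z : K) :=
  Algebra.algebraMap_intNorm (A := 𝓞 E) (K := E) (L := K) (B := 𝓞 K) z

/-- the size of the relative norm -/
theorem Lw_norm (z : K) (hz : z ≠ 0) (S : ℝ) (hS : ∀ w : InfinitePlace K, Lw w z ≤ S)
    (v : InfinitePlace E) : Lw v (Algebra.norm E z) ≤ Module.finrank E K * S := by
  let _ : Algebra E ℂ := v.embedding.toAlgebra
  have hfin : FiniteDimensional E K := by
    have : IsScalarTower ℚ E K := inferInstance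
    exact FiniteDimensional.right ℚ E K
  have h1 : algebraMap E ℂ (Algebra.norm E z) = ∏ τ : K →ₐ[E] ℂ, τ z :=
    Algebra.norm_eq_prod_embeddings E ℂ z
  have h2 : v (Algebra.norm E z) = ∏ τ : K →ₐ[E] ℂ, (InfinitePlace.mk (τ : K →+* ℂ)) z := by
    rw [← InfinitePlace.norm_embedding_eq]
    change ‖algebraMap E ℂ (Algebra.norm E z)‖ = _
    rw [h1, norm_prod]
    rfl
  have hn : Module.finrank ℚ E * Module.finrank E K = Module.finrank ℚ K :=
    Module.finrank_mul_finrank ℚ E K
  have hE0 : (0 : ℝ) < Module.finrank ℚ E := by exact_mod_cast Module.finrank_pos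
  have hK0 : (0 : ℝ) < Module.finrank ℚ K := by exact_mod_cast Module.finrank_pos
  have hm0 : (0 : ℝ) < Module.finrank E K := by exact_mod_cast Module.finrank_pos
  have hnr : (Module.finrank ℚ E : ℝ) * Module.finrank E K = Module.finrank ℚ K := by
    exact_mod_cast hn
  have h3 : Real.log (v (Algebra.norm E z)) =
      ∑ τ : K →ₐ[E] ℂ, Real.log ((InfinitePlace.mk (τ : K →+* ℂ)) z) := by
    rw [h2, Real.log_prod]
    intro τ _
    exact (w_pos _ hz).ne'
  set N : ℝ := Real.log |((Algebra.norm ℚ z : ℚ) : ℝ)| with hN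
  have h4 : ∀ τ : K →ₐ[E] ℂ, Real.log ((InfinitePlace.mk (τ : K →+* ℂ)) z) ≤
      S + N / Module.finrank ℚ K := by
    intro τ
    have := hS (InfinitePlace.mk (τ : K →+* ℂ))
    unfold Lw at this
    linarith
  have h5 : Real.log (v (Algebra.norm E z)) ≤
      Module.finrank E K * (S + N / Module.finrank ℚ K) := by
    rw [h3]
    refine (Finset.sum_le_card_nsmul _ _ _ fun τ _ => h4 τ).trans ?_
    rw [nsmul_eq_mul, Finset.card_univ, AlgHom.card]
  unfold Lw
  have h6 : Algebra.norm ℚ (Algebra.norm E z) = Algebra.norm ℚ z := Algebra.norm_norm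
  rw [h6, ← hN]
  have h7 : (Module.finrank E K : ℝ) * (N / Module.finrank ℚ K) = N / Module.finrank ℚ E := by
    rw [← hnr]
    field_simp
  have h8 : Module.finrank E K * (S + N / Module.finrank ℚ K) =
      Module.finrank E K * S + N / Module.finrank ℚ E := by
    rw [mul_add, h7]
  rw [h8] at h5
  linarith

/-- torsion classes of `K` and primes of degree one of the subfield `E` -/
theorem ev_lift {e n : ℕ} (he : Module.finrank ℚ E = e) (he2 : 2 ≤ e)
    (hn : Module.finrank ℚ K = n) {l : ℕ} (hl : 1 ≤ l) (N : ℕ)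
    (hN : 2 ^ n * √|(discr K : ℝ)| < N) (S : Finset ℕ) (y : ℕ)
    (hS : ∀ p ∈ S, p.Prime ∧ p ≤ y ∧ ¬ p ∣ (discr E).natAbs ∧
      ∃ P : Ideal (𝓞 E), Ideal.absNorm P = p)
    (hD : (2 * 150 ^ (l * n)) ^ (e * (e - 1)) * y ^ (2 * (l * n) * (e - 1)) < (discr E).natAbs) :
    (S.card : ℝ) * (Nat.card {c : ClassGroup (𝓞 K) // c ^ l = 1} : ℝ) ≤ WW K n N := by
  have hlr : (1 : ℝ) ≤ l := by exact_mod_cast hl
  set m : ℕ := Module.finrank E K with hm
  have hm0 : 0 < m := Module.finrank_pos
  have hem : e * m = n := by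
    rw [← he, ← hn, hm]
    exact Module.finrank_mul_finrank ℚ E K
  have hmn : m ≤ n := by
    rw [← hem]
    exact Nat.le_mul_of_pos_left m (by omega)
  have hlm : 1 ≤ l * m := Nat.mul_pos hl hm0
  have hQex : ∀ p : ℕ, ∃ Q R : Ideal (𝓞 E), p ∈ S → (Q * R = Ideal.span {((p : ℕ) : 𝓞 E)} ∧
      Ideal.absNorm Q = p ∧ Ideal.absNorm R = p ^ (e - 1) ∧ ¬ Q ∣ R ∧ Q ≠ ⊥ ∧ R ≠ ⊥) := by
    intro p
    by_cases hp : p ∈ S
    · obtain ⟨hpp, -, hpD, P, hP⟩ := hS p hp
      obtain ⟨P', J, _, h1, h2, h3⟩ := cofactorn he hpp hP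
      refine ⟨P', J, fun _ => ⟨h1, h2, h3, ?_, nonZeroDivisors.coe_ne_zero P',
        nonZeroDivisors.coe_ne_zero J⟩⟩
      intro hd
      exact hpD (dvd_discr_of_dvd hpp h2 h1 hd)
    · exact ⟨⊥, ⊥, fun h => absurd h hp⟩
  choose Q R hQR using hQex
  set f : 𝓞 E →+* 𝓞 K := algebraMap (𝓞 E) (𝓞 K) with hf
  have hfinj : Function.Injective f := FaithfulSMul.algebraMap_injective (𝓞 E) (𝓞 K)
  have hmap0 : ∀ I : Ideal (𝓞 E), I ≠ ⊥ → I.map f ≠ ⊥ := by
    intro I hI h
    exact hI ((Ideal.map_eq_bot_iff_of_injective hfinj).1 h)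
  have hA : ∀ c : {c : ClassGroup (𝓞 K) // c ^ l = 1}, ∃ (A : (Ideal (𝓞 K))⁰)
      (γ : 𝓞 K), ClassGroup.mk0 A = c.1 ∧
      (A : Ideal (𝓞 K)) ^ l = Ideal.span {γ} ∧ γ ≠ 0 ∧
      ∀ w : InfinitePlace K, |Lw w (γ : K)| ≤ 2 * l :=
    fun c => exists_rep hl c.1 c.2
  choose A γ hA1 hA2 hA3 hA4 using hA
  have key := pack hn N hN ({p // p ∈ S} × {c : ClassGroup (𝓞 K) // c ^ l = 1})
    (fun i => A i.2 * ⟨(Q i.1.1).map f, mem_nonZeroDivisors_of_ne_zero
      (hmap0 _ (hQR i.1.1 i.1.2).2.2.2.2.1)⟩) (by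
      rintro ⟨⟨p, hp⟩, c⟩ ⟨⟨q, hq⟩, c'⟩ a b ha hb hab hw
      simp only [Submonoid.coe_mul] at hab
      have haK : (a : K) ≠ 0 := by exact_mod_cast ha
      have hbK : (b : K) ≠ 0 := by exact_mod_cast hb
      have hγK : (γ c : K) ≠ 0 := by exact_mod_cast hA3 c
      have hγK' : (γ c' : K) ≠ 0 := by exact_mod_cast hA3 c'
      obtain ⟨hpp, hpy, hpD, -⟩ := hS p hp
      obtain ⟨hqp, hqy, hqD, -⟩ := hS q hq
      obtain ⟨p1, p2, p3, p4, p5, p6⟩ := hQR p hp
      obtain ⟨q1, q2, q3, q4, q5, q6⟩ := hQR q hq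
      have hpK : ((p : ℕ) : K) ≠ 0 := by
        exact_mod_cast hpp.ne_zero
      have hmapp : (Q p).map f * (R p).map f = Ideal.span {((p : ℕ) : 𝓞 K)} := by
        rw [← Ideal.map_mul, p1, Ideal.map_span, Set.image_singleton, map_natCast]
      have hpq : p = q := by
        by_contra hne
        -- the l-th power
        have e1 : Ideal.span {a ^ l * γ c'} * (((Q q).map f) ^ l * ((R p).map f) ^ l) =
            Ideal.span {b ^ l * γ c * ((p : ℕ) : 𝓞 K) ^ l} := by
          have e2 := congrArg (fun I => I ^ l * ((R p).map f) ^ l) hab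
          simp only [mul_pow, Ideal.span_singleton_pow, hA2] at e2
          rw [← Ideal.span_singleton_mul_span_singleton, ← Ideal.span_singleton_mul_span_singleton,
            ← Ideal.span_singleton_mul_span_singleton, ← Ideal.span_singleton_pow ((p : ℕ) : 𝓞 K),
            ← hmapp, mul_pow]
          calc _ = Ideal.span {a ^ l} * (Ideal.span {γ c'} * ((Q q).map f) ^ l) *
                ((R p).map f) ^ l := by ring
            _ = Ideal.span {b ^ l} * (Ideal.span {γ c} * ((Q p).map f) ^ l) *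
                ((R p).map f) ^ l := e2
            _ = _ := by ring
        have hden : a ^ l * γ c' ≠ 0 := mul_ne_zero (pow_ne_zero _ ha) (hA3 c')
        have hdvd : a ^ l * γ c' ∣ b ^ l * γ c * ((p : ℕ) : 𝓞 K) ^ l := by
          rw [← Ideal.span_singleton_le_span_singleton, ← e1]
          exact Ideal.mul_le_left
        obtain ⟨z, hz⟩ := hdvd
        have hzspan : Ideal.span {z} = ((Q q).map f) ^ l * ((R p).map f) ^ l := by
          rw [hz, ← Ideal.span_singleton_mul_span_singleton (a ^ l * γ c')] at e1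
          have hne0 : Ideal.span {a ^ l * γ c'} ≠ (0 : Ideal (𝓞 K)) := by
            rw [Ne, Ideal.zero_eq_bot, Ideal.span_singleton_eq_bot]
            exact hden
          exact (mul_left_cancel₀ hne0 e1).symm
        have hz0 : z ≠ 0 := by
          rintro rfl
          rw [mul_zero] at hz
          have : (b ^ l * γ c * ((p : ℕ) : 𝓞 K) ^ l) ≠ 0 := by
            refine mul_ne_zero (mul_ne_zero (pow_ne_zero _ hb) (hA3 c)) (pow_ne_zero _ ?_)
            exact_mod_cast hpp.ne_zero
          exact this hz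
        have hzK : (z : K) ≠ 0 := by exact_mod_cast hz0
        -- the size of z at the places
        have hLz : ∀ w : InfinitePlace K, Lw w (z : K) ≤ 5 * l := by
          intro w
          have h1 : Lw w ((a ^ l * γ c' * z : 𝓞 K) : K) =
              Lw w ((b ^ l * γ c * ((p : ℕ) : 𝓞 K) ^ l : 𝓞 K) : K) := by rw [hz]
          push_cast at h1
          rw [Lw_mul w (mul_ne_zero (pow_ne_zero _ haK) hγK') hzK,
            Lw_mul w (pow_ne_zero _ haK) hγK', Lw_mul w (mul_ne_zero (pow_ne_zero _ hbK) hγK)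
              (pow_ne_zero _ hpK), Lw_mul w (pow_ne_zero _ hbK) hγK, Lw_pow, Lw_pow, Lw_pow,
            Lw_natCast, mul_zero, add_zero] at h1
          have h2 := abs_lt.mp (hw w)
          have h3 := abs_le.mp (hA4 c w)
          have h4 := abs_le.mp (hA4 c' w)
          have h5 : (l : ℝ) * (Lw w (b : K) - Lw w (a : K)) ≤ l * 1 :=
            mul_le_mul_of_nonneg_left (by linarith) (by linarith)
          nlinarith
        -- the norm
        set ζ : 𝓞 E := Algebra.intNorm (𝓞 E) (𝓞 K) z with hζ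
        have hζ0 : ζ ≠ 0 := fun h => hz0 (Algebra.intNorm_eq_zero.mp h)
        have hζspan : Ideal.span {ζ} = Q q ^ (l * m) * R p ^ (l * m) := by
          have h1 : Ideal.span {z} = ((Q q) ^ l * (R p) ^ l).map f := by
            rw [hzspan, Ideal.map_mul, Ideal.map_pow, Ideal.map_pow]
          have h2 := congrArg (Ideal.relNorm (𝓞 E)) h1
          rw [Ideal.relNorm_singleton, hf, Ideal.relNorm_algebraMap, finrank_int, ← hm] at h2
          rw [hζ, h2, mul_pow, ← pow_mul, ← pow_mul]
        have hLζ : ∀ v : InfinitePlace E, Lw v (ζ : E) ≤ 5 * (l * m : ℕ) := by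
          intro v
          rw [hζ, coe_intNorm]
          refine (Lw_norm (z : K) hzK (5 * l) hLz v).trans ?_
          rw [← hm]
          push_cast
          nlinarith
        have hfinal := no_elt he he2 hlm y hpp hqp hne hpy hqy (Q q) (R q) (Q p) (R p) q1 q2 q4 p1 p3
          ζ hζ0 hζspan hLζ
        have hlt : (2 * 150 ^ (l * m)) ^ (e * (e - 1)) * y ^ (2 * (l * m) * (e - 1)) ≤
            (2 * 150 ^ (l * n)) ^ (e * (e - 1)) * y ^ (2 * (l * n) * (e - 1)) := by
          have hy1 : 1 ≤ y := hpp.one_lt.le.trans hpy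
          apply Nat.mul_le_mul
          · apply Nat.pow_le_pow_left
            apply Nat.mul_le_mul_left
            exact Nat.pow_le_pow_right (by norm_num) (Nat.mul_le_mul_left l hmn)
          · apply Nat.pow_le_pow_right hy1
            apply Nat.mul_le_mul_right
            apply Nat.mul_le_mul_left
            exact Nat.mul_le_mul_left l hmn
        omega
      subst hpq
      have hc : c = c' := by
        have hP0 : (Q p).map f ≠ 0 := hmap0 _ p5
        have e1 : Ideal.span {a} * (A c' : Ideal (𝓞 K)) =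
            Ideal.span {b} * (A c : Ideal (𝓞 K)) := by
          rw [← mul_assoc, ← mul_assoc] at hab
          exact mul_right_cancel₀ hP0 hab
        have e2 : ClassGroup.mk0 (A c') = ClassGroup.mk0 (A c) := by
          rw [ClassGroup.mk0_eq_mk0_iff]
          exact ⟨a, b, ha, hb, e1⟩
        rw [hA1, hA1] at e2
        exact Subtype.ext e2.symm
      rw [hc])
  rw [Fintype.card_prod, Fintype.card_coe] at key
  rw [Nat.card_eq_fintype_card]
  push_cast at key
  exact key

end Pool.Agent.H62.GX
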