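import Pool.Agent.H62.GX.Many
import Pool.Agent.H62.GX.Lift
import Pool.Graph.R_pool_sql_team_seeded_efc1946e.K1H39.GE.Sub

set_option autoImplicit false

/-!
# Assembly
-/

namespace Pool.Agent.H62.GX

open NumberField Finset IntermediateField Pool.Agent.Q122.TF
open Pool.Agent.K1H79.GE (Hs)

theorem disc_hs (n : ℕ) : ∃ C : ℝ, 1 ≤ C ∧ ∀ (L : Type) [Field L] [NumberField L],
    Module.finrank ℚ L ≤ n → ∀ H : ℝ, 1 ≤ H → |(discr (Hs L H) : ℝ)| ≤ C * H ^ C := by
  have h := Pool.Agent.K1H39.GE.t_SUB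
  unfold Pool.Agent.K1H79.GE.S_SUB at h
  choose f hf0 hf using h
  refine ⟨1 + ∑ i ∈ Finset.range (n + 1), f i, ?_, ?_⟩
  · have : 0 ≤ ∑ i ∈ Finset.range (n + 1), f i := Finset.sum_nonneg fun i _ => (hf0 i).le
    linarith
  · intro L _ _ hL H hH
    refine (hf _ L rfl H hH).trans ?_
    have h1 : f (Module.finrank ℚ L) ≤ 1 + ∑ i ∈ Finset.range (n + 1), f i := by
      have := Finset.single_le_sum (fun i _ => (hf0 i).le)
        (Finset.mem_range.2 (Nat.lt_succ_of_le hL))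
      linarith
    have h0 := hf0 (Module.finrank ℚ L)
    apply mul_le_mul h1 _ (by positivity) (by linarith)
    exact Real.rpow_le_rpow_of_exponent_le hH h1

section

variable {L : Type} [Field L] [NumberField L]

theorem exists_step {n : ℕ} (hn : Module.finrank ℚ L ≤ n) (h : ℕ → ℝ)
    (hh : ∀ j, h (j + 1) ≤ h j) : ∃ j < n, Hs L (h (j + 1)) = Hs L (h j) := by
  by_contra hc
  push Not at hc
  have key : ∀ j ≤ n, Module.finrank ℚ (Hs L (h j)) + j ≤ Module.finrank ℚ (Hs L (h 0)) := by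
    intro j
    induction j with
    | zero => intro _; exact le_rfl
    | succ j ih =>
      intro hj
      have h1 := ih (by omega)
      have h2 : Module.finrank ℚ (Hs L (h (j + 1))) < Module.finrank ℚ (Hs L (h j)) := by
        by_contra h3
        push Not at h3
        exact hc j (by omega) (IntermediateField.eq_of_le_of_finrank_le (hs_mono (hh j)) h3)
      omega
  have h1 := key n le_rfl
  have h2 : 0 < Module.finrank ℚ (Hs L (h n)) := Module.finrank_pos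
  have h3 : Module.finrank ℚ (Hs L (h 0)) ≤ Module.finrank ℚ L := by
    rw [← Module.finrank_mul_finrank ℚ (Hs L (h 0)) L]
    exact Nat.le_mul_of_pos_right _ Module.finrank_pos
  omega

theorem disc_top {F : IntermediateField ℚ L} (hF : F = ⊤) : discr F = discr L := by
  subst hF
  exact NumberField.discr_eq_discr_of_algEquiv _ (IntermediateField.topEquiv (F := ℚ) (E := L))

end

theorem ev_const (C1 B1 B2 B3 c1 c2 c3 : ℝ) (hc1 : 0 < c1) (hc2 : 0 < c2) (hc3 : 0 < c3) :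
    ∃ D0 : ℝ, 1 ≤ D0 ∧ ∀ D : ℝ, D0 ≤ D → C1 < D ∧ B1 ≤ D ^ c1 ∧ B2 < D ^ c2 ∧ B3 ≤ D ^ c3 := by
  have h1 := Filter.eventually_gt_atTop C1
  have h2 := (tendsto_rpow_atTop hc1).eventually_ge_atTop B1
  have h3 := (tendsto_rpow_atTop hc2).eventually_gt_atTop B2
  have h4 := (tendsto_rpow_atTop hc3).eventually_ge_atTop B3
  obtain ⟨D0, hD0⟩ := (h1.and (h2.and (h3.and h4))).exists_forall_of_atTop
  refine ⟨max 1 D0, le_max_left _ _, fun D hD => ?_⟩
  exact hD0 D ((le_max_right _ _).trans hD)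

theorem core (n l : ℕ) (hn : 2 ≤ n) (hl : 1 ≤ l) : ∃ δ : ℝ, 0 < δ ∧ ∃ D0 : ℝ, 1 ≤ D0 ∧
    ∀ (L K : Type) [Field L] [NumberField L] [IsGalois ℚ L] [Field K] [NumberField K]
      [Algebra L K], Module.finrank ℚ K = n → Star (L ≃ₐ[ℚ] L) → D0 ≤ |(discr L : ℝ)| →
      ∀ N : ℕ, 2 ^ n * √|(discr K : ℝ)| < N →
      (Nat.card {c : ClassGroup (𝓞 K) // c ^ l = 1} : ℝ) * |(discr L : ℝ)| ^ δ ≤
        4 * n * WW K n N := by
  obtain ⟨C1, hC11, hC1⟩ := disc_hs n
  obtain ⟨C2, hC21, hC2⟩ := many_primes n (by omega)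
  have hnr : (2 : ℝ) ≤ n := by exact_mod_cast hn
  have hlr : (1 : ℝ) ≤ l := by exact_mod_cast hl
  obtain ⟨β, hβ⟩ : ∃ β : ℝ, β = 2 * l * n ^ 2 := ⟨_, rfl⟩
  have hβ1 : 1 ≤ β := by
    rw [hβ]
    nlinarith [mul_le_mul hlr (show (1 : ℝ) ≤ n ^ 2 by nlinarith) (by norm_num) (by linarith)]
  obtain ⟨κ, hκ⟩ : ∃ κ : ℝ, κ = 2 * β * C1 * C2 := ⟨_, rfl⟩
  have hκ1 : 1 ≤ κ := by
    rw [hκ]
    have h1 : 1 ≤ β * C1 := one_le_mul_of_one_le_of_one_le hβ1 hC11
    have h2 : 1 ≤ β * C1 * C2 := one_le_mul_of_one_le_of_one_le h1 hC21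
    nlinarith
  obtain ⟨a0, ha0⟩ : ∃ a0 : ℝ, a0 = 1 / (2 * C1) := ⟨_, rfl⟩
  have ha00 : 0 < a0 := by rw [ha0]; positivity
  obtain ⟨am, ham⟩ : ∃ am : ℝ, am = a0 / κ ^ n := ⟨_, rfl⟩
  have ham0 : 0 < am := by rw [ham]; positivity
  obtain ⟨b0, hb0⟩ : ∃ b0 : ℝ, b0 = am / β := ⟨_, rfl⟩
  have hb00 : 0 < b0 := by rw [hb0]; positivity
  obtain ⟨D0, hD01, hD0⟩ := ev_const (C1 ^ 2) (2 * C2 * C1 ^ C2)
    ((2 * 150 ^ (l * n)) ^ (n * n) * (2 ^ n + 2) ^ 2) (320 / b0) (b0 / 2) am (b0 / 40)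
    (by positivity) ham0 (by positivity)
  refine ⟨b0 / 20, by positivity, D0, hD01, ?_⟩
  intro L K _ _ _ _ _ _ hK hStar hDL N hN
  obtain ⟨D, hD⟩ : ∃ D : ℝ, D = |(discr L : ℝ)| := ⟨_, rfl⟩
  rw [← hD] at hDL ⊢
  obtain ⟨hd1, hd2, hd3, hd4⟩ := hD0 D hDL
  have hD1 : 1 ≤ D := hD01.trans hDL
  have hDpos : 0 < D := by linarith
  have hLn : Module.finrank ℚ L ≤ n := by
    rw [← hK, ← Module.finrank_mul_finrank ℚ L K]
    exact Nat.le_mul_of_pos_right _ Module.finrank_pos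
  -- the scales
  obtain ⟨a, ha⟩ : ∃ a : ℕ → ℝ, ∀ j, a j = a0 / κ ^ j := ⟨_, fun _ => rfl⟩
  have haκ : ∀ j, a (j + 1) = a j / κ := by
    intro j
    rw [ha, ha, pow_succ]
    field_simp
  have hapos : ∀ j, 0 < a j := by
    intro j
    rw [ha]
    positivity
  have hadec : ∀ j, a (j + 1) ≤ a j := by
    intro j
    rw [haκ]
    exact div_le_self (hapos j).le hκ1
  have hamin : ∀ j ≤ n, am ≤ a j := by
    intro j hj
    rw [ham, ha]
    exact div_le_div_of_nonneg_left ha00.le (by positivity) (pow_le_pow_right₀ hκ1 hj)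
  have ha0' : a 0 = a0 := by rw [ha, pow_zero, div_one]
  have hanti : ∀ j, D ^ (a (j + 1)) ≤ D ^ (a j) := fun j =>
    Real.rpow_le_rpow_of_exponent_le hD1 (hadec j)
  obtain ⟨j, hj, hjeq⟩ := exists_step hLn (fun j => D ^ (a j)) hanti
  have htop : Hs L (D ^ (a (j + 1))) ≠ ⊤ := by
    intro h
    have hle : D ^ (a (j + 1)) ≤ D ^ a0 := by
      apply Real.rpow_le_rpow_of_exponent_le hD1
      rw [ha]
      exact div_le_self ha00.le (one_le_pow₀ hκ1)
    have h1 : Hs L (D ^ a0) = ⊤ := by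
      rw [eq_top_iff, ← h]
      exact hs_mono hle
    have h2 := hC1 L hLn (D ^ a0) (Real.one_le_rpow hD1 ha00.le)
    rw [disc_top h1, ← hD, ← Real.rpow_mul hDpos.le,
      show a0 * C1 = 1 / 2 by rw [ha0]; field_simp, ← Real.sqrt_eq_rpow] at h2
    have h3 : √D ≤ C1 := by
      have h4 : √D * √D = D := Real.mul_self_sqrt hDpos.le
      have h5 : 0 < √D := Real.sqrt_pos.2 hDpos
      nlinarith
    rw [Real.sqrt_le_left (by linarith)] at h3
    linarith
  obtain ⟨b, hb⟩ : ∃ b : ℝ, b = a j / β := ⟨_, rfl⟩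
  have hbb0 : b0 ≤ b := by
    rw [hb, hb0]
    exact div_le_div_of_nonneg_right (hamin j hj.le) (by linarith)
  have hbpos : 0 < b := by linarith
  obtain ⟨y, hy⟩ : ∃ y : ℕ, y = ⌊D ^ b⌋₊ := ⟨_, rfl⟩
  have hyle : (y : ℝ) ≤ D ^ b := by rw [hy]; exact Nat.floor_le (by positivity)
  have hCC : 1 ≤ C2 * C1 ^ C2 := one_le_mul_of_one_le_of_one_le hC21
    (Real.one_le_rpow hC11 (by linarith))
  have hDb2 : 2 * C2 * C1 ^ C2 ≤ D ^ (b / 2) :=
    hd2.trans (Real.rpow_le_rpow_of_exponent_le hD1 (by linarith))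
  have hDb2' : D ^ (b / 2) * D ^ (b / 2) = D ^ b := by
    rw [← Real.rpow_add hDpos]
    ring_nf
  have hDb2pos : 0 < D ^ (b / 2) := by positivity
  have hDb : 2 ≤ D ^ b := by
    have h1 : 2 ≤ D ^ (b / 2) := by linarith
    nlinarith
  have hyge : D ^ b / 2 ≤ y := by
    have : D ^ b < y + 1 := by rw [hy]; exact Nat.lt_floor_add_one _
    linarith
  have hcond1 : C2 * |(discr (Hs L (D ^ (a (j + 1)))) : ℝ)| ^ C2 ≤ y := by
    have h1 := hC1 L hLn (D ^ (a (j + 1))) (Real.one_le_rpow hD1 (hapos _).le)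
    have h2 : |(discr (Hs L (D ^ (a (j + 1)))) : ℝ)| ^ C2 ≤
        (C1 * (D ^ (a (j + 1))) ^ C1) ^ C2 :=
      Real.rpow_le_rpow (abs_nonneg _) h1 (by linarith)
    have h3 : (C1 * (D ^ (a (j + 1))) ^ C1) ^ C2 = C1 ^ C2 * D ^ (b / 2) := by
      rw [Real.mul_rpow (by linarith) (by positivity), ← Real.rpow_mul hDpos.le,
        ← Real.rpow_mul hDpos.le]
      congr 2
      rw [haκ, hb, hκ]
      field_simp
    have h4 : C2 * C1 ^ C2 * D ^ (b / 2) ≤ D ^ b / 2 := by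
      rw [← hDb2']
      nlinarith
    calc C2 * |(discr (Hs L (D ^ (a (j + 1)))) : ℝ)| ^ C2 ≤
        C2 * (C1 ^ C2 * D ^ (b / 2)) := by
          rw [← h3]
          exact mul_le_mul_of_nonneg_left h2 (by linarith)
      _ = C2 * C1 ^ C2 * D ^ (b / 2) := by ring
      _ ≤ y := h4.trans hyge
  have hy20 : D ^ (b0 / 20) / 2 ≤ (y : ℝ) ^ (1 / 20 : ℝ) := by
    calc D ^ (b0 / 20) / 2 ≤ D ^ (b / 20) / 2 := by
          have := Real.rpow_le_rpow_of_exponent_le hD1 (show b0 / 20 ≤ b / 20 by linarith)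
          linarith
      _ ≤ (D ^ b) ^ (1 / 20 : ℝ) * (1 / 2 : ℝ) ^ (1 / 20 : ℝ) := by
          rw [← Real.rpow_mul hDpos.le, show b * (1 / 20) = b / 20 by ring, div_eq_mul_one_div]
          have h1 : (1 / 2 : ℝ) ^ (1 : ℝ) ≤ (1 / 2 : ℝ) ^ (1 / 20 : ℝ) :=
            Real.rpow_le_rpow_of_exponent_ge (by norm_num) (by norm_num) (by norm_num)
          rw [Real.rpow_one] at h1
          exact mul_le_mul_of_nonneg_left h1 (by positivity)
      _ = (D ^ b / 2) ^ (1 / 20 : ℝ) := by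
          rw [← Real.mul_rpow (by positivity) (by norm_num)]
          congr 1
          ring
      _ ≤ (y : ℝ) ^ (1 / 20 : ℝ) := Real.rpow_le_rpow (by positivity) hyge (by norm_num)
  have hcond2 : 4 * Real.log |(discr L : ℝ)| ≤ (y : ℝ) ^ (1 / 20 : ℝ) := by
    rw [← hD]
    refine le_trans ?_ hy20
    have h1 : Real.log D ≤ D ^ (b0 / 40) / (b0 / 40) :=
      Real.log_le_rpow_div hDpos.le (by positivity)
    have h2 : D ^ (b0 / 40) * D ^ (b0 / 40) = D ^ (b0 / 20) := by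
      rw [← Real.rpow_add hDpos]
      ring_nf
    have h3 : D ^ (b0 / 40) / (b0 / 40) = (320 / b0) * D ^ (b0 / 40) / 8 := by
      field_simp
      ring
    have h4 : (320 / b0) * D ^ (b0 / 40) ≤ D ^ (b0 / 40) * D ^ (b0 / 40) := by gcongr
    rw [h2] at h4
    linarith
  obtain ⟨E, S, hE, hS, hSc⟩ := hC2 L hLn hStar _ y htop hcond1 hcond2
  have hE' : ¬ E ≤ Hs L (D ^ (a j)) := by
    have h : Hs L (D ^ (a (j + 1))) = Hs L (D ^ (a j)) := hjeq
    rwa [h] at hE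
  have hdisc := disc_of_not_le hLn E hE'
  let _ : Algebra E K := ((algebraMap L K).comp (algebraMap E L)).toAlgebra
  have hE1 : Module.finrank ℚ E ≠ 1 := by
    intro h
    rw [IntermediateField.finrank_eq_one_iff] at h
    apply hE
    rw [h]
    exact bot_le
  have hE2 : 2 ≤ Module.finrank ℚ E := by
    have : 0 < Module.finrank ℚ E := Module.finrank_pos
    omega
  have hEn : Module.finrank ℚ E ≤ n := by
    refine le_trans ?_ hLn
    rw [← Module.finrank_mul_finrank ℚ E L]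
    exact Nat.le_mul_of_pos_right _ Module.finrank_pos
  have hdvd : (discr E).natAbs ∣ (discr L).natAbs :=
    Int.natAbs_dvd_natAbs.2 (discr_dvd_discr E L)
  have hy1 : 1 ≤ y := by
    have h1 : (1 : ℝ) ≤ y := by linarith
    exact_mod_cast h1
  have key := ev_lift (E := E) (K := K) (e := Module.finrank ℚ E) rfl hE2 hK hl N hN S y
    (fun p hp => by
      obtain ⟨h1, h2, h3, h4⟩ := hS p hp
      exact ⟨h1, h2, fun h => h3 (h.trans hdvd), h4⟩) (by
      obtain ⟨e, he⟩ : ∃ e : ℕ, e = Module.finrank ℚ E := ⟨_, rfl⟩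
      rw [← he] at hE2 hEn ⊢
      have h1 : (2 * 150 ^ (l * n)) ^ (e * (e - 1)) * y ^ (2 * (l * n) * (e - 1)) ≤
          (2 * 150 ^ (l * n)) ^ (n * n) * y ^ (2 * l * n ^ 2) := by
        apply Nat.mul_le_mul
        · apply Nat.pow_le_pow_right
          · positivity
          · exact Nat.mul_le_mul hEn (by omega)
        · apply Nat.pow_le_pow_right hy1
          calc 2 * (l * n) * (e - 1) ≤ 2 * (l * n) * n := Nat.mul_le_mul_left _ (by omega)
            _ = 2 * l * n ^ 2 := by ring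
      have h2 : (((2 * 150 ^ (l * n)) ^ (n * n) * y ^ (2 * l * n ^ 2) : ℕ) : ℝ) <
          ((discr E).natAbs : ℝ) := by
        have hdE : ((discr E).natAbs : ℝ) = |(discr E : ℝ)| := by rw [Nat.cast_natAbs, Int.cast_abs]
        rw [hdE]
        push_cast
        have h3 : (y : ℝ) ^ (2 * l * n ^ 2) ≤ D ^ (a j) := by
          calc (y : ℝ) ^ (2 * l * n ^ 2) ≤ (D ^ b) ^ (2 * l * n ^ 2) := by gcongr
            _ = D ^ (a j) := by
                rw [← Real.rpow_natCast, ← Real.rpow_mul hDpos.le]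
                congr 1
                push_cast
                rw [← hβ, hb]
                field_simp
        have h4 : (2 * 150 ^ (l * n)) ^ (n * n) * (2 ^ n + 2) ^ 2 < D ^ (a j) :=
          hd3.trans_le (Real.rpow_le_rpow_of_exponent_le hD1 (hamin j hj.le))
        have h5 : (D ^ (a j)) ^ 2 < (2 ^ n + 2) ^ 2 * |(discr E : ℝ)| := by
          have h6 : (D ^ (a j)) ^ 2 < ((2 ^ n + 2) * √|(discr E : ℝ)|) ^ 2 := by
            apply pow_lt_pow_left₀ hdisc (by positivity) (by norm_num)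
          rwa [mul_pow, Real.sq_sqrt (abs_nonneg _)] at h6
        have h7 : 0 < D ^ (a j) := by positivity
        have h8 : (2 * 150 ^ (l * n)) ^ (n * n) * (2 ^ n + 2) ^ 2 * D ^ (a j) <
            (2 ^ n + 2) ^ 2 * |(discr E : ℝ)| := by
          refine lt_of_le_of_lt ?_ h5
          rw [sq (D ^ (a j))]
          exact mul_le_mul_of_nonneg_right h4.le h7.le
        have h9 : (0 : ℝ) < (2 ^ n + 2) ^ 2 := by positivity
        have h10 : (2 * 150 ^ (l * n)) ^ (n * n) * D ^ (a j) < |(discr E : ℝ)| := by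
          by_contra hc
          push Not at hc
          have := mul_le_mul_of_nonneg_left hc h9.le
          linarith
        calc ((2 : ℝ) * 150 ^ (l * n)) ^ (n * n) * (y : ℝ) ^ (2 * l * n ^ 2) ≤
            (2 * 150 ^ (l * n)) ^ (n * n) * D ^ (a j) := by gcongr
          _ < _ := h10
      exact lt_of_le_of_lt h1 (by exact_mod_cast h2))
  have hcl : 0 ≤ (Nat.card {c : ClassGroup (𝓞 K) // c ^ l = 1} : ℝ) := Nat.cast_nonneg _
  calc (Nat.card {c : ClassGroup (𝓞 K) // c ^ l = 1} : ℝ) * D ^ (b0 / 20) ≤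
      (Nat.card {c : ClassGroup (𝓞 K) // c ^ l = 1} : ℝ) * (2 * (2 * n * S.card)) := by
        apply mul_le_mul_of_nonneg_left _ hcl
        linarith
    _ = 4 * n * (S.card * (Nat.card {c : ClassGroup (𝓞 K) // c ^ l = 1} : ℝ)) := by ring
    _ ≤ 4 * n * WW K n N := by gcongr

end Pool.Agent.H62.GX
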