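import Mathlib

set_option autoImplicit false

/-!
# The group theoretic condition
-/

namespace Pool.Agent.H62.GX

/-- For every central element `z` of prime order the elements `g` with `z ∈ ⟨g⟩` generate a proper
subgroup. -/
def Star (G : Type) [Group G] : Prop :=
  ∀ z ∈ Subgroup.center G, (orderOf z).Prime →
    Subgroup.closure {g : G | z ∈ Subgroup.zpowers g} ≠ ⊤

theorem exists_M {G : Type} [Group G] [Finite G] (hG : Star G) (N : Subgroup G) [hNn : N.Normal]
    (hN : N ≠ ⊥) :
    ∃ M : Subgroup G, M.Normal ∧ M ≠ ⊤ ∧ (∀ τ : G, N ≤ Subgroup.zpowers τ → τ ∈ M) := by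
  refine ⟨Subgroup.closure {g : G | N ≤ Subgroup.zpowers g}, ?_, ?_, ?_⟩
  · constructor
    intro g hg x
    have h1 : ∀ y ∈ {g : G | N ≤ Subgroup.zpowers g}, x * y * x⁻¹ ∈ {g : G | N ≤ Subgroup.zpowers g} := by
      intro y hy a ha
      have h2 : x⁻¹ * a * x ∈ N := by
        have := hNn.conj_mem a ha x⁻¹
        simpa using this
      obtain ⟨k, hk⟩ := Subgroup.mem_zpowers_iff.1 (hy h2)
      refine Subgroup.mem_zpowers_iff.2 ⟨k, ?_⟩
      rw [conj_zpow, hk]
      group
    have h2 : Subgroup.closure {g : G | N ≤ Subgroup.zpowers g} ≤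
        (Subgroup.closure {g : G | N ≤ Subgroup.zpowers g}).comap (MulAut.conj x).toMonoidHom := by
      rw [Subgroup.closure_le]
      intro y hy
      change x * y * x⁻¹ ∈ Subgroup.closure {g : G | N ≤ Subgroup.zpowers g}
      exact Subgroup.subset_closure (h1 y hy)
    exact h2 hg
  · intro htop
    have hcen : N ≤ Subgroup.center G := by
      have h1 : (⊤ : Subgroup G) ≤ Subgroup.centralizer (N : Set G) := by
        rw [← htop, Subgroup.closure_le]
        intro g hg
        rw [SetLike.mem_coe, Subgroup.mem_centralizer_iff]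
        intro a ha
        obtain ⟨k, hk⟩ := Subgroup.mem_zpowers_iff.1 (hg ha)
        rw [← hk]
        exact (Commute.refl g).zpow_left k
      intro a ha
      rw [Subgroup.mem_center_iff]
      intro g
      have := Subgroup.mem_centralizer_iff.1 (h1 (Subgroup.mem_top g)) a ha
      exact this.symm
    have hcard : Nat.card N ≠ 1 := by
      intro h
      exact hN (Subgroup.card_eq_one.1 h)
    obtain ⟨p, hp, hpd⟩ := Nat.exists_prime_and_dvd hcard
    have : Fact p.Prime := ⟨hp⟩
    obtain ⟨z, hz⟩ := exists_prime_orderOf_dvd_card' p hpd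
    have hz' : orderOf (z : G) = p := by rw [Subgroup.orderOf_coe]; exact hz
    refine hG (z : G) (hcen z.2) (by rw [hz']; exact hp) ?_
    rw [eq_top_iff, ← htop]
    apply Subgroup.closure_mono
    intro g hg
    exact hg z.2
  · intro τ hτ
    exact Subgroup.subset_closure hτ

end Pool.Agent.H62.GX
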