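import Pool.Agent.H62.GX.LemY
import Pool.Agent.H62.GX.Grp
import Pool.Agent.H62.ExcNorm
import Pool.Graph.R_pool_sql_team_seeded_efc1946e.K1H79.SX.Cmp

set_option autoImplicit false

/-!
# Galois theory: splitting and Frobenius elements
-/

namespace Pool.Agent.H62.GX

open NumberField Finset IntermediateField

theorem split_of_norm {E : Type} [Field E] [NumberField E] [IsGalois ℚ E] {p : ℕ} (hp : p.Prime)
    (hd : ¬ p ∣ (discr E).natAbs) (hP : ∃ P : Ideal (𝓞 E), Ideal.absNorm P = p) : Split E p := by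
  obtain ⟨P, hP⟩ := hP
  have hpZ : Prime (p : ℤ) := Nat.prime_iff_prime_int.mp hp
  have hPp : P.IsPrime := Ideal.isPrime_of_irreducible_absNorm (by rw [hP]; exact hp)
  have hmem : (p : 𝓞 E) ∈ P := by
    have := Ideal.absNorm_mem P
    rwa [hP] at this
  have hPl : P.LiesOver (Ideal.span {(p : ℤ)}) :=
    (Ideal.liesOver_span_iff hPp.ne_top hpZ).mpr (by simpa using hmem)
  have hspan : (Ideal.span {(p : ℤ)}).IsPrime :=
    (Ideal.span_singleton_prime hpZ.ne_zero).2 hpZ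
  have hdZ : ¬ (p : ℤ) ∣ discr E := by
    intro h
    exact hd (Int.natCast_dvd.1 h)
  have hunr := (not_dvd_discr_iff_isUnramifiedIn E (𝓞 E) hpZ).1 hdZ
  have h1 := Ideal.ncard_primesOver_mul_ramificationIdxIn_mul_inertiaDegIn
    (Ideal.span {(p : ℤ)}) (𝓞 E) Gal(E/ℚ)
  have hfi : (Ideal.span {(p : ℤ)}).inertiaDegIn (𝓞 E) = 1 := by
    rw [Ideal.inertiaDegIn_eq_inertiaDeg (Ideal.span {(p : ℤ)}) P Gal(E/ℚ)]
    have h2 := Ideal.pow_inertiaDeg p P
    rw [hP] at h2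
    exact Nat.pow_right_injective hp.two_le (by
      change p ^ Ideal.inertiaDeg P ℤ = p ^ 1
      rw [h2, pow_one])
  have hra : (Ideal.span {(p : ℤ)}).ramificationIdxIn (𝓞 E) = 1 := by
    rw [Ideal.ramificationIdxIn_eq_ramificationIdx (Ideal.span {(p : ℤ)}) P Gal(E/ℚ)]
    exact hunr.ramificationIdx_eq_one hPl
  rw [hfi, hra, IsGaloisGroup.card_eq_finrank Gal(E/ℚ) ℚ E, mul_one, mul_one] at h1
  unfold Split
  rw [← h1]
  have hsub : (Ideal.span {(p : ℤ)}).primesOver (𝓞 E) ⊆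
      {Q : Ideal (𝓞 E) | Ideal.absNorm Q = p} := by
    intro Q hQ
    have hQ1 : Q.IsPrime := hQ.1
    have hQ2 : Q.LiesOver (Ideal.span {(p : ℤ)}) := hQ.2
    have h3 : Q.inertiaDeg ℤ = 1 := by
      rw [← Ideal.inertiaDegIn_eq_inertiaDeg (Ideal.span {(p : ℤ)}) Q Gal(E/ℚ), hfi]
    have h4 := Ideal.pow_inertiaDeg p Q
    rw [h3, pow_one] at h4
    exact h4.symm
  exact Set.ncard_le_ncard hsub (Ideal.finite_setOfPred_absNorm_eq p)

/-- a Frobenius element gives primes of norm `p` in all subfields that it fixes -/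
theorem frob_prime (L : Type) [Field L] [NumberField L] [IsGalois ℚ L] {p : ℕ} (hp : p.Prime) :
    ∃ τ : L ≃ₐ[ℚ] L, ∀ (E : Type) [Field E] [NumberField E] (φ : E →+* L),
      (∀ x : E, τ (φ x) = φ x) → ∃ P : Ideal (𝓞 E), Ideal.absNorm P = p := by
  have : Fact p.Prime := ⟨hp⟩
  have hpZ : Prime (p : ℤ) := Nat.prime_iff_prime_int.mp hp
  have hm : (Ideal.span {(p : ℤ)}).IsMaximal :=
    PrincipalIdealRing.isMaximal_of_irreducible hpZ.irreducible
  obtain ⟨Q, -, hQ, hQP⟩ := Ideal.exists_ideal_over_prime_of_isIntegral (Ideal.span {(p : ℤ)})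
    (⊥ : Ideal (𝓞 L)) (by
    intro x hx
    have h1 : (algebraMap ℤ (𝓞 L)) x = 0 := hx
    have h2 : x = 0 := (FaithfulSMul.algebraMap_eq_zero_iff ℤ (𝓞 L)).1 h1
    rw [h2]
    exact Ideal.zero_mem _)
  have hpQ : (p : 𝓞 L) ∈ Q := by
    have h1 : (p : ℤ) ∈ Ideal.comap (algebraMap ℤ (𝓞 L)) Q := by
      rw [hQP]
      exact Ideal.mem_span_singleton_self _
    have h2 : algebraMap ℤ (𝓞 L) (p : ℤ) ∈ Q := h1
    simpa using h2
  have hQ0 : Q ≠ ⊥ := by
    rintro rfl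
    rw [Ideal.mem_bot] at hpQ
    exact hp.ne_zero (by exact_mod_cast hpQ)
  have hfin : Finite (𝓞 L ⧸ Q) := Ideal.finiteQuotientOfFreeOfNeBot Q hQ0
  obtain ⟨τ, hτ⟩ := IsArithFrobAt.exists_of_isInvariant ℤ (L ≃ₐ[ℚ] L) Q
  have hcard : Nat.card (ℤ ⧸ Q.under ℤ) = p := by
    have h1 : Q.under ℤ = Ideal.span {(p : ℤ)} := hQP
    rw [h1, Int.card_ideal_quot]
  have hτ' : ∀ x : 𝓞 L, τ • x - x ^ p ∈ Q := by
    intro x
    have := hτ x
    rw [hcard] at this
    exact this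
  refine ⟨τ, ?_⟩
  intro E _ _ φ hφ
  refine ⟨Ideal.comap (RingOfIntegers.mapRingHom φ) Q,
    Exc.norm_of_frob hp _ (Ideal.comap_isPrime _ Q) ?_ ?_⟩
  · rw [Ideal.mem_comap, map_natCast]
    exact hpQ
  · intro y
    rw [Ideal.mem_comap, map_sub, map_pow]
    have h1 : τ • (RingOfIntegers.mapRingHom φ y) = RingOfIntegers.mapRingHom φ y := by
      apply RingOfIntegers.coe_injective
      exact hφ (y : E)
    have h2 := hτ' (RingOfIntegers.mapRingHom φ y)
    rw [h1] at h2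
    rw [← neg_sub]
    exact Q.neg_mem h2

section

variable {L : Type} [Field L] [NumberField L]

open Pool.Agent.K1H79.GE (Hs)

theorem hs_stable (H : ℝ) (σ : L ≃ₐ[ℚ] L) {x : L} (hx : x ∈ Hs L H) : σ x ∈ Hs L H := by
  have h1 : Hs L H ≤ (Hs L H).comap σ.toAlgHom := by
    unfold Hs
    rw [IntermediateField.adjoin_le_iff]
    rintro y ⟨hy1, hy2⟩
    change σ y ∈ IntermediateField.adjoin ℚ {x : L | IsIntegral ℤ x ∧
      ∀ w : InfinitePlace L, w x ≤ H}
    apply IntermediateField.subset_adjoin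
    refine ⟨?_, ?_⟩
    · exact map_isIntegral_int (σ : L →+* L) hy1
    · intro w
      exact hy2 (w.comap (σ : L →+* L))
  exact h1 hx

theorem hs_mono {H H' : ℝ} (h : H ≤ H') : Hs L H ≤ Hs L H' := by
  unfold Hs
  apply IntermediateField.adjoin.mono
  rintro x ⟨h1, h2⟩
  exact ⟨h1, fun w => (h2 w).trans h⟩

theorem hs_normal (H : ℝ) : (Hs L H).fixingSubgroup.Normal := by
  constructor
  intro g hg σ
  rw [IntermediateField.mem_fixingSubgroup_iff] at hg ⊢
  intro x hx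
  have h1 : g (σ⁻¹ x) = σ⁻¹ x := hg _ (hs_stable H σ⁻¹ hx)
  change σ (g (σ⁻¹ x)) = x
  rw [h1]
  exact AlgEquiv.apply_symm_apply σ x

/-- a subfield which is not contained in `Hs` has large discriminant -/
theorem disc_of_not_le {n : ℕ} (hn : Module.finrank ℚ L ≤ n) {H : ℝ} (E : IntermediateField ℚ L)
    (hE : ¬ E ≤ Hs L H) : H < (2 ^ n + 2) * √|(discr E : ℝ)| := by
  by_contra hc
  push Not at hc
  apply hE
  obtain ⟨a, ha, ha'⟩ := Pool.Agent.K1H79.SX.prim_small E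
  have hEn : Module.finrank ℚ E ≤ n := by
    refine le_trans ?_ hn
    rw [← Module.finrank_mul_finrank ℚ E L]
    exact Nat.le_mul_of_pos_right _ Module.finrank_pos
  intro x hx
  refine Pool.Agent.K1H79.SX.mem_Hs (K := L) ha (H := H) (fun w => ?_) (⟨x, hx⟩ : E)
  refine (ha' w).trans (le_trans ?_ hc)
  gcongr
  norm_num

end

end Pool.Agent.H62.GX
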