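import Pool.Agent.H62.GX.SplitSum
import Pool.Graph.R_seed8.Erdos456.Mertens

set_option autoImplicit false

/-!
# Many small primes do not split completely
-/

namespace Pool.Agent.H62.GX

open NumberField Finset NumberField.InfinitePlace IntermediateField
open scoped nonZeroDivisors

theorem exists_J (e : ℕ) (he : 1 ≤ e) : ∃ C1 : ℝ, 1 ≤ C1 ∧ ∀ R : ℝ, 1 ≤ R →
    ∃ J : ℕ, ((165 + 4 * (J : ℝ)) * R) ^ (2 * e) < (10 / 9 : ℝ) ^ J ∧
      40 + (J : ℝ) ≤ C1 * R ^ (1 / 20 : ℝ) := by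
  set c : ℝ := Real.log (10 / 9) with hc
  have hc0 : 0 < c := Real.log_pos (by norm_num)
  have her : (1 : ℝ) ≤ e := by exact_mod_cast he
  set A : ℝ := 1 + 43264 * e ^ 2 / c ^ 2 + 160 * e / c with hA
  have hA1 : 1 ≤ A := by
    have h1 : 0 ≤ 43264 * (e : ℝ) ^ 2 / c ^ 2 := by positivity
    have h2 : 0 ≤ 160 * (e : ℝ) / c := by positivity
    linarith
  refine ⟨41 + A, by linarith, ?_⟩
  intro R hR
  have hR0 : 0 < R := by linarith
  set ρ : ℝ := R ^ (1 / 20 : ℝ) with hρ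
  have hρ1 : 1 ≤ ρ := Real.one_le_rpow hR (by norm_num)
  set J : ℕ := ⌈A * ρ⌉₊ with hJ
  have hJ1 : A * ρ ≤ J := Nat.le_ceil _
  have hJ2 : (J : ℝ) < A * ρ + 1 := Nat.ceil_lt_add_one (by positivity)
  have hJA : A ≤ J := (le_mul_of_one_le_right (by linarith) hρ1).trans hJ1
  have hJ0 : 1 ≤ (J : ℝ) := hA1.trans hJA
  refine ⟨J, ?_, ?_⟩
  · have hpos : 0 < (165 + 4 * (J : ℝ)) * R := by positivity
    rw [← Real.log_lt_log_iff (by positivity) (by positivity), Real.log_pow, Real.log_pow,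
      Real.log_mul (by positivity) (by positivity), ← hc]
    have h1 : Real.log (165 + 4 * (J : ℝ)) ≤ J * c / (8 * e) := by
      have h2 : Real.log (165 + 4 * (J : ℝ)) ≤ (165 + 4 * (J : ℝ)) ^ (1 / 2 : ℝ) / (1 / 2) :=
        Real.log_le_rpow_div (by positivity) (by norm_num)
      rw [← Real.sqrt_eq_rpow] at h2
      have h3 : √(165 + 4 * (J : ℝ)) ≤ J * c / (16 * e) := by
        rw [Real.sqrt_le_left (by positivity)]
        have h4 : 165 + 4 * (J : ℝ) ≤ 169 * J := by linarith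
        have h5 : 43264 * (e : ℝ) ^ 2 / c ^ 2 ≤ J := by
          have h2 : 0 ≤ 160 * (e : ℝ) / c := by positivity
          linarith
        rw [div_le_iff₀ (by positivity)] at h5
        have h6 : 169 * (J : ℝ) ≤ (J * c / (16 * e)) ^ 2 := by
          rw [div_pow, le_div_iff₀ (by positivity)]
          nlinarith
        linarith
      have h7 : (J : ℝ) * c / (8 * e) = (J * c / (16 * e)) / (1 / 2) := by
        field_simp; ring
      rw [h7]
      exact h2.trans (by gcongr)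
    have h2 : Real.log R ≤ J * c / (8 * e) := by
      have h3 : Real.log R ≤ R ^ (1 / 20 : ℝ) / (1 / 20) := Real.log_le_rpow_div hR0.le (by norm_num)
      rw [← hρ] at h3
      have h4 : 160 * e / c * ρ ≤ J := by
        refine le_trans ?_ hJ1
        have h1 : 0 ≤ 43264 * (e : ℝ) ^ 2 / c ^ 2 := by positivity
        have : 160 * (e : ℝ) / c ≤ A := by linarith
        gcongr
      rw [le_div_iff₀ (by positivity)]
      rw [div_mul_eq_mul_div, div_le_iff₀ hc0] at h4
      have h5 : Real.log R * (8 * e) ≤ ρ / (1 / 20) * (8 * e) := by gcongr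
      have h6 : ρ / (1 / 20) * (8 * e) = 160 * e * ρ := by ring
      linarith
    have h3 : ((2 * e : ℕ) : ℝ) * (Real.log (165 + 4 * (J : ℝ)) + Real.log R) ≤ J * c / 2 := by
      calc ((2 * e : ℕ) : ℝ) * (Real.log (165 + 4 * (J : ℝ)) + Real.log R) ≤
          ((2 * e : ℕ) : ℝ) * (J * c / (8 * e) + J * c / (8 * e)) := by gcongr
        _ = J * c / 2 := by
            push_cast
            field_simp
            ring
    have h4 : (J : ℝ) * c / 2 < J * c := by
      have : 0 < (J : ℝ) * c := by positivity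
      linarith
    linarith
  · calc 40 + (J : ℝ) ≤ 41 + A * ρ := by linarith
      _ ≤ 41 * ρ + A * ρ := by nlinarith
      _ = (41 + A) * ρ := by ring

/-- the size of the radius `R` on a logarithmic scale -/
theorem logR_le (e : ℕ) (he2 : 2 ≤ e) {D Y N H : ℝ} (hD1 : 1 ≤ D) (hY : 1 ≤ Y) (hN3 : 1 ≤ N)
    (hN2 : N ≤ 2 ^ (e + 1) * √D) (hH1 : 1 ≤ H) (hH : H = (2 ^ e + 2) * √D) :
    Real.log (e * (N * Y) ^ ((e : ℝ)⁻¹) * H ^ (e - 1)) ≤
      (1 / 2) * Real.log Y + (Real.log e + Real.log (2 ^ (e + 1)) +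
      e * Real.log (2 ^ e + 2) + 2 * e) * (1 + Real.log D) := by
  have her : (2 : ℝ) ≤ e := by exact_mod_cast he2
  have hle : 0 ≤ Real.log e := Real.log_nonneg (by linarith)
  have hl2 : 0 ≤ Real.log (2 ^ (e + 1)) := Real.log_nonneg (one_le_pow₀ (by norm_num))
  have hl3 : 0 ≤ Real.log (2 ^ e + 2) := Real.log_nonneg (by
    have : (0 : ℝ) ≤ 2 ^ e := by positivity
    linarith)
  have hlD : 0 ≤ Real.log D := Real.log_nonneg hD1
  have hD0 : 0 < D := by linarith
  have hT0 : 0 < (N * Y) ^ ((e : ℝ)⁻¹) := by positivity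
  have hH0 : 0 < H := by linarith
  have hs0 : 0 < √D := Real.sqrt_pos.2 hD0
  rw [Real.log_mul (by positivity) (by positivity), Real.log_mul (by positivity)
      (by positivity), Real.log_pow, Real.log_rpow (by positivity), Real.log_mul
      (by positivity) (by positivity)]
  have h1 : Real.log N ≤ Real.log (2 ^ (e + 1)) + Real.log D := by
    refine (Real.log_le_log (by linarith) hN2).trans ?_
    rw [Real.log_mul (by positivity) (by positivity), Real.log_sqrt (by linarith)]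
    linarith
  have h2 : Real.log H ≤ Real.log (2 ^ e + 2) + Real.log D := by
    rw [hH, Real.log_mul (by positivity) (by positivity), Real.log_sqrt (by linarith)]
    linarith
  have h3 : ((e - 1 : ℕ) : ℝ) * Real.log H ≤ e * (Real.log (2 ^ e + 2) + Real.log D) := by
    have h4 : ((e - 1 : ℕ) : ℝ) ≤ e := by exact_mod_cast Nat.sub_le e 1
    have h5 : 0 ≤ Real.log H := Real.log_nonneg hH1
    exact mul_le_mul h4 h2 h5 (by positivity)
  have h6 : (e : ℝ)⁻¹ ≤ 1 / 2 := by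
    rw [one_div]
    exact inv_anti₀ (by norm_num) her
  have h7 : 0 ≤ Real.log Y := Real.log_nonneg hY
  have h8 : 0 ≤ Real.log N := Real.log_nonneg hN3
  have h9 : (e : ℝ)⁻¹ * (Real.log N + Real.log Y) ≤
      (1 / 2) * (Real.log (2 ^ (e + 1)) + Real.log D) + (1 / 2) * Real.log Y := by
    calc (e : ℝ)⁻¹ * (Real.log N + Real.log Y) ≤ (1 / 2) * (Real.log N + Real.log Y) := by
          gcongr
      _ ≤ (1 / 2) * ((Real.log (2 ^ (e + 1)) + Real.log D) + Real.log Y) := by gcongr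
      _ = _ := by ring
  generalize Real.log (2 ^ (e + 1)) = A1 at *
  generalize Real.log (2 ^ e + 2) = A2 at *
  generalize Real.log (e : ℝ) = A3 at *
  generalize Real.log D = A4 at *
  generalize Real.log Y = A5 at *
  generalize Real.log N = A6 at *
  generalize ((e - 1 : ℕ) : ℝ) * Real.log H = A7 at *
  have h10 : 0 ≤ A3 * A4 := by positivity
  have h11 : 0 ≤ A1 * A4 := by positivity
  have h12 : 0 ≤ (e : ℝ) * A2 * A4 := by positivity
  have h13 : 1 * A4 ≤ (e : ℝ) * A4 := by gcongr; linarith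
  have h14 : (A3 + A1 + e * A2 + 2 * e) * (1 + A4) = A3 + A1 + e * A2 + 2 * e + A3 * A4 +
    A1 * A4 + e * A2 * A4 + 2 * (e * A4) := by ring
  rw [h14]
  have h15 : (e : ℝ) * (A2 + A4) = e * A2 + e * A4 := by ring
  rw [h15] at h3
  linarith

/-- an upper bound for the split primes with explicit dependence on the discriminant -/
theorem split_upper (e : ℕ) (he2 : 2 ≤ e) : ∃ C : ℝ, 0 < C ∧ ∀ (E : Type) [Field E] [NumberField E],
    Module.finrank ℚ E = e → ∀ (Y : ℝ), 1 ≤ Y → ∀ S : Finset ℕ,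
      (∀ p ∈ S, p.Prime ∧ (p : ℝ) ≤ Y ∧ Split E p) →
      ∑ p ∈ S, Real.log p / p ≤ (5 / 8) * Real.log Y + C * (1 + Real.log |(discr E : ℝ)|) := by
  obtain ⟨C1, hC11, hC1⟩ := exists_J e (by omega)
  have her : (2 : ℝ) ≤ e := by exact_mod_cast he2
  set C2 : ℝ := Real.log C1 + 2 * (Real.log e + Real.log (2 ^ (e + 1)) +
    e * Real.log (2 ^ e + 2) + 2 * e) with hC2
  have hlC1 : 0 ≤ Real.log C1 := Real.log_nonneg hC11
  have hle : 0 ≤ Real.log e := Real.log_nonneg (by linarith)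
  have hl2 : 0 ≤ Real.log (2 ^ (e + 1)) := Real.log_nonneg (one_le_pow₀ (by norm_num))
  have hl3 : 0 ≤ Real.log (2 ^ e + 2) := Real.log_nonneg (by
    have : (0 : ℝ) ≤ 2 ^ e := by positivity
    linarith)
  have hC20 : 0 < C2 := by
    have : 0 ≤ e * Real.log (2 ^ e + 2) := by positivity
    linarith
  refine ⟨2 * C2, by positivity, ?_⟩
  intro E _ _ he Y hY S hS
  set D : ℝ := |(discr E : ℝ)| with hD
  have hD1 : 1 ≤ D := by
    have := Int.one_le_abs (discr_ne_zero E)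
    rw [hD]
    exact_mod_cast this
  have hlD : 0 ≤ Real.log D := Real.log_nonneg hD1
  have hs1 : 1 ≤ √D := Real.one_le_sqrt.2 hD1
  have h2e : (1 : ℝ) ≤ 2 ^ e := one_le_pow₀ (by norm_num)
  set N : ℕ := ⌊2 ^ e * √D⌋₊ + 1 with hN
  have hN1 : 2 ^ e * √D < N := by
    rw [hN]; push_cast; exact Nat.lt_floor_add_one _
  have hN2 : (N : ℝ) ≤ 2 ^ (e + 1) * √D := by
    rw [hN]; push_cast
    have := Nat.floor_le (show 0 ≤ 2 ^ e * √D by positivity)
    rw [pow_succ]
    nlinarith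
  have hN3 : (1 : ℝ) ≤ N := by
    have : 1 ≤ N := by omega
    exact_mod_cast this
  set H : ℝ := (2 ^ e + 2) * √D with hH
  have hH1 : 1 ≤ H := by nlinarith
  have hprim : ∃ a : 𝓞 E, ℚ⟮(a : E)⟯ = ⊤ ∧ ∀ w : InfinitePlace E, w (a : E) ≤ H := by
    obtain ⟨a, ha, hb⟩ := Pool.Agent.K1H79.SX.prim_small E
    rw [he, ← hD, ← hH] at hb
    exact ⟨a, ha, hb⟩
  have hpow : ∀ {x : ℝ}, 0 ≤ x → (x ^ ((e : ℝ)⁻¹)) ^ e = x := by
    intro x hx
    rw [← Real.rpow_natCast, ← Real.rpow_mul hx, inv_mul_cancel₀ (by linarith), Real.rpow_one]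
  set T : ℝ := (N * Y) ^ ((e : ℝ)⁻¹) with hT
  have hNY : 1 ≤ N * Y := one_le_mul_of_one_le_of_one_le hN3 hY
  have hTpow : T ^ e = N * Y := hpow (by linarith)
  have hT1 : 1 ≤ T := Real.one_le_rpow hNY (by positivity)
  set R : ℝ := e * T * H ^ (e - 1) with hR
  have hHp : 1 ≤ H ^ (e - 1) := one_le_pow₀ hH1
  have hR1 : 1 ≤ R := by
    rw [hR]
    have : 1 ≤ e * T := by nlinarith
    exact one_le_mul_of_one_le_of_one_le this hHp
  -- many integers in the box
  have hmany : 20 * Y ≤ nb (⊤ : Ideal (𝓞 E)) (40 * R) := by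
    set M : ℕ := ⌈(20 * Y) ^ ((e : ℝ)⁻¹)⌉₊ with hM
    have hM1 : (20 * Y) ^ ((e : ℝ)⁻¹) ≤ M := Nat.le_ceil _
    have hz1 : 1 ≤ (20 * Y) ^ ((e : ℝ)⁻¹) := Real.one_le_rpow (by linarith) (by positivity)
    have hM0 : 1 ≤ (M : ℝ) := hz1.trans hM1
    have hM2 : (M : ℝ) ≤ 40 * Y ^ ((e : ℝ)⁻¹) := by
      have h1 : (M : ℝ) < (20 * Y) ^ ((e : ℝ)⁻¹) + 1 := Nat.ceil_lt_add_one (by positivity)
      have h2 : (20 * Y) ^ ((e : ℝ)⁻¹) ≤ 20 * Y ^ ((e : ℝ)⁻¹) := by
        rw [Real.mul_rpow (by norm_num) (by linarith)]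
        have : (20 : ℝ) ^ ((e : ℝ)⁻¹) ≤ 20 ^ (1 : ℝ) := by
          apply Real.rpow_le_rpow_of_exponent_le (by norm_num)
          rw [inv_le_one₀ (by linarith)]
          linarith
        rw [Real.rpow_one] at this
        gcongr
      have h3 : 1 ≤ Y ^ ((e : ℝ)⁻¹) := Real.one_le_rpow hY (by positivity)
      linarith
    have hMne : M ≠ 0 := by
      intro h
      rw [h] at hM0
      norm_num at hM0
    set I : Ideal (𝓞 E) := Ideal.span {((M : ℕ) : 𝓞 E)} with hI
    have hI0 : I ≠ ⊥ := by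
      rw [hI, Ne, Ideal.span_singleton_eq_bot]
      exact_mod_cast hMne
    have hIn : Ideal.absNorm I = M ^ e := by
      rw [hI, Ideal.absNorm_span_natCast, RingOfIntegers.rank, he]
    have h1 := le_nb I hI0 (fun x => cover he I hI0 N hN1 (T := N ^ ((e : ℝ)⁻¹) * M)
      (by positivity) hH1 (by
        rw [mul_pow, hpow (by linarith), hIn]
        push_cast
        exact le_rfl) hprim x)
    rw [hIn] at h1
    have h2 : e * (N ^ ((e : ℝ)⁻¹) * M) * H ^ (e - 1) ≤ 40 * R := by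
      rw [hR, hT, Real.mul_rpow (by linarith) (by linarith)]
      calc e * (N ^ ((e : ℝ)⁻¹) * M) * H ^ (e - 1) ≤
          e * (N ^ ((e : ℝ)⁻¹) * (40 * Y ^ ((e : ℝ)⁻¹))) * H ^ (e - 1) := by gcongr
        _ = _ := by ring
    have h3 : ((M ^ e : ℕ) : ℝ) ≤ nb (⊤ : Ideal (𝓞 E)) (40 * R) := by
      exact_mod_cast h1.trans (nb_mono _ h2)
    refine le_trans ?_ h3
    push_cast
    calc 20 * Y = ((20 * Y) ^ ((e : ℝ)⁻¹)) ^ e := (hpow (by linarith)).symm
      _ ≤ (M : ℝ) ^ e := by gcongr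
  -- the scale
  obtain ⟨J, hJ1, hJ2⟩ := hC1 R hR1
  obtain ⟨j, -, hjJ, hj⟩ := exists_scale (nb (⊤ : Ideal (𝓞 E))) (40 * R) R (by
      have : (1 : ℝ) ≤ nb (⊤ : Ideal (𝓞 E)) (40 * R) := by linarith
      exact_mod_cast this) J (by
      refine lt_of_le_of_lt (nb_le he _ (by positivity)) (lt_of_le_of_lt ?_ hJ1)
      apply pow_le_pow_left₀ (by positivity)
      nlinarith)
  set X : ℝ := 40 * R + j * R with hX
  have hX40 : 40 * R ≤ X := by
    have : 0 ≤ (j : ℝ) * R := by positivity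
    linarith
  have hX1 : 1 ≤ X := by linarith
  have hXle : X ≤ C1 * R ^ (1 / 20 : ℝ) * R := by
    have h1 : (j : ℝ) ≤ J := by exact_mod_cast hjJ
    calc X = (40 + j) * R := by rw [hX]; ring
      _ ≤ (40 + J) * R := by gcongr
      _ ≤ _ := by gcongr
  have hsplit := split_sum he N hN1 (by linarith) hH1 (le_of_eq hTpow.symm) hprim hX1 hj (by
    refine hmany.trans ?_
    exact_mod_cast nb_mono _ hX40) S hS
  -- logarithms
  have hlogR : Real.log R ≤ (1 / 2) * Real.log Y + (Real.log e + Real.log (2 ^ (e + 1)) +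
      e * Real.log (2 ^ e + 2) + 2 * e) * (1 + Real.log D) :=
    logR_le e he2 hD1 hY hN3 hN2 hH1 hH
  have hlogX : Real.log X ≤ Real.log C1 + (21 / 20) * Real.log R := by
    refine (Real.log_le_log (by linarith) hXle).trans ?_
    rw [Real.log_mul (by positivity) (by positivity), Real.log_mul (by positivity)
      (by positivity), Real.log_rpow (by linarith)]
    linarith
  set Q : ℝ := Real.log e + Real.log (2 ^ (e + 1)) + e * Real.log (2 ^ e + 2) + 2 * e with hQ
  have hQ0 : 0 ≤ Q * (1 + Real.log D) := by positivity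
  have hlC : Real.log C1 ≤ Real.log C1 * (1 + Real.log D) := by nlinarith
  have hlY : 0 ≤ Real.log Y := Real.log_nonneg hY
  have hC2D : C2 * (1 + Real.log D) = Real.log C1 * (1 + Real.log D) + 2 * (Q * (1 + Real.log D)) := by
    rw [hC2]; ring
  nlinarith

end Pool.Agent.H62.GX
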