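import Pool.Agent.H62.GX.LemX

set_option autoImplicit false

/-!
# Many small primes do not split completely (counting version)
-/

namespace Pool.Agent.H62.GX

open NumberField Finset NumberField.InfinitePlace IntermediateField
open scoped nonZeroDivisors

theorem lemmaX (e : ℕ) (he2 : 2 ≤ e) : ∃ C : ℝ, 1 ≤ C ∧ ∀ (E : Type) [Field E] [NumberField E],
    Module.finrank ℚ E = e → ∀ (Y : ℕ), C * |(discr E : ℝ)| ^ C ≤ Y →
      ∃ S : Finset ℕ, (∀ p ∈ S, p.Prime ∧ p ≤ Y ∧ ¬ Split E p) ∧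
        (Y : ℝ) ^ (1 / 20 : ℝ) ≤ S.card := by
  classical
  obtain ⟨C0, hC0, hsu⟩ := split_upper e he2
  obtain ⟨M, hM⟩ := Pool.Agent.Erdos456.Mert.mertens_log
  have hM0 : 0 ≤ M := (abs_nonneg _).trans (hM 1 le_rfl)
  set B : ℝ := 16 * (2 * M + C0) + 32 with hB
  have hB0 : 32 ≤ B := by
    have : 0 ≤ 16 * (2 * M + C0) := by positivity
    linarith
  have hC16 : 16 * C0 ≤ B := by linarith
  refine ⟨Real.exp B, Real.one_le_exp (by linarith), ?_⟩
  intro E _ _ he Y hY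
  set D : ℝ := |(discr E : ℝ)| with hD
  have hD1 : 1 ≤ D := by
    have := Int.one_le_abs (discr_ne_zero E)
    rw [hD]
    exact_mod_cast this
  have hlD : 0 ≤ Real.log D := Real.log_nonneg hD1
  have hexp : B + 1 ≤ Real.exp B := Real.add_one_le_exp B
  have hY0 : 0 < (Y : ℝ) := lt_of_lt_of_le (by positivity) hY
  have hL : B + 16 * C0 * Real.log D ≤ Real.log Y := by
    have h1 := Real.log_le_log (by positivity) hY
    rw [Real.log_mul (by positivity) (by positivity), Real.log_exp,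
      Real.log_rpow (by linarith)] at h1
    have : 16 * C0 * Real.log D ≤ Real.exp B * Real.log D := by
      gcongr
      linarith
    linarith
  have hL32 : 32 ≤ Real.log Y := by
    have : 0 ≤ 16 * C0 * Real.log D := by positivity
    linarith
  have hYpos : 1 ≤ Y := by
    have : (0 : ℝ) < Y := hY0
    exact_mod_cast this
  have hY1 : (1 : ℝ) ≤ Y := by exact_mod_cast hYpos
  set z : ℕ := ⌊(Y : ℝ) ^ (1 / 4 : ℝ)⌋₊ with hz
  have hz1 : (1 : ℝ) ≤ (Y : ℝ) ^ (1 / 4 : ℝ) := Real.one_le_rpow hY1 (by norm_num)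
  have hz2 : 1 ≤ z := by
    rw [hz]
    exact Nat.le_floor (by simpa using hz1)
  have hz3 : (z : ℝ) ≤ (Y : ℝ) ^ (1 / 4 : ℝ) := Nat.floor_le (by positivity)
  have hzY : z ≤ Y := by
    have : (Y : ℝ) ^ (1 / 4 : ℝ) ≤ (Y : ℝ) ^ (1 : ℝ) :=
      Real.rpow_le_rpow_of_exponent_le hY1 (by norm_num)
    rw [Real.rpow_one] at this
    exact_mod_cast hz3.trans this
  set P : Finset ℕ := (Finset.Icc 1 Y).filter Nat.Prime with hP
  set Q : Finset ℕ := (Finset.Icc 1 z).filter Nat.Prime with hQ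
  set Sp : Finset ℕ := P.filter (fun p => Split E p) with hSp
  set Sn : Finset ℕ := P.filter (fun p => ¬ Split E p) with hSn
  set S : Finset ℕ := Sn.filter (fun p => z < p) with hSdef
  have hterm : ∀ p : ℕ, 0 ≤ Real.log p / p := fun p => by
    have : 0 ≤ Real.log (p : ℝ) := Real.log_natCast_nonneg p
    positivity
  have h1 : Real.log Y - M ≤ ∑ p ∈ P, Real.log p / p := by
    have := (abs_le.1 (hM Y hYpos)).1
    linarith
  have h2 : ∑ p ∈ Q, Real.log p / p ≤ Real.log z + M := by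
    have := (abs_le.1 (hM z hz2)).2
    linarith
  have h3 : Real.log z ≤ Real.log Y / 4 := by
    have h := Real.log_le_log (by exact_mod_cast hz2) hz3
    rw [Real.log_rpow hY0] at h
    linarith
  have h4 : ∑ p ∈ Sp, Real.log p / p ≤ (5 / 8) * Real.log Y + C0 * (1 + Real.log D) := by
    refine hsu E he Y hY1 Sp ?_
    intro p hp
    simp only [hSp, hP, mem_filter, mem_Icc] at hp
    exact ⟨hp.1.2, by exact_mod_cast hp.1.1.2, hp.2⟩
  have h5 : ∑ p ∈ P, Real.log p / p =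
      ∑ p ∈ Sp, Real.log p / p + ∑ p ∈ Sn, Real.log p / p :=
    (Finset.sum_filter_add_sum_filter_not P (fun p => Split E p) _).symm
  have h6 : ∑ p ∈ Sn, (Real.log p / p : ℝ) =
      ∑ p ∈ S, Real.log p / p + ∑ p ∈ Sn.filter (fun p => ¬ z < p), Real.log p / p :=
    (Finset.sum_filter_add_sum_filter_not Sn (fun p => z < p) _).symm
  have h7 : ∑ p ∈ Sn.filter (fun p => ¬ z < p), (Real.log p / p : ℝ) ≤
      ∑ p ∈ Q, Real.log p / p := by
    apply Finset.sum_le_sum_of_subset_of_nonneg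
    · intro p hp
      simp only [hSn, hP, hQ, mem_filter, mem_Icc, not_lt] at hp ⊢
      exact ⟨⟨hp.1.1.1.1, hp.2⟩, hp.1.1.2⟩
    · intro p _ _
      exact hterm p
  have h8 : Real.log Y / 16 ≤ ∑ p ∈ S, Real.log p / p := by
    have h9 : 16 * (2 * M + C0 * (1 + Real.log D)) ≤ Real.log Y := by
      have : 16 * (2 * M + C0 * (1 + Real.log D)) =
        16 * (2 * M + C0) + 16 * C0 * Real.log D := by ring
      rw [this]
      linarith
    linarith
  refine ⟨S, ?_, ?_⟩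
  · intro p hp
    simp only [hSdef, hSn, hP, mem_filter, mem_Icc] at hp
    exact ⟨hp.1.1.2, hp.1.1.1.2, hp.1.2⟩
  · have h9 : ∀ p ∈ S, Real.log p / p ≤ 2 * (Y : ℝ) ^ (-(1 / 8) : ℝ) := by
      intro p hp
      simp only [hSdef, hSn, hP, mem_filter, mem_Icc] at hp
      have hpz : z + 1 ≤ p := hp.2
      have hp0 : (0 : ℝ) < p := by
        have : 0 < p := by omega
        exact_mod_cast this
      have hp1 : (Y : ℝ) ^ (1 / 4 : ℝ) ≤ p := by
        have h10 : (Y : ℝ) ^ (1 / 4 : ℝ) < z + 1 := Nat.lt_floor_add_one _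
        have h11 : ((z + 1 : ℕ) : ℝ) ≤ p := by exact_mod_cast hpz
        push_cast at h11
        linarith
      have h12 : Real.log p ≤ (p : ℝ) ^ (1 / 2 : ℝ) / (1 / 2) :=
        Real.log_le_rpow_div hp0.le (by norm_num)
      have h13 : (p : ℝ) ^ (1 / 2 : ℝ) / (1 / 2) / p = 2 * (p : ℝ) ^ (-(1 / 2) : ℝ) := by
        have h14 : (p : ℝ) ^ (-(1 / 2) : ℝ) = (p : ℝ) ^ (1 / 2 : ℝ) / p := by
          rw [show (-(1 / 2) : ℝ) = 1 / 2 - 1 by norm_num, Real.rpow_sub_one hp0.ne']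
        rw [h14]
        ring
      calc Real.log p / p ≤ (p : ℝ) ^ (1 / 2 : ℝ) / (1 / 2) / p := by gcongr
        _ = 2 * (p : ℝ) ^ (-(1 / 2) : ℝ) := h13
        _ ≤ 2 * ((Y : ℝ) ^ (1 / 4 : ℝ)) ^ (-(1 / 2) : ℝ) := by
            have := Real.rpow_le_rpow_of_nonpos (by positivity) hp1
              (show (-(1 / 2) : ℝ) ≤ 0 by norm_num)
            linarith
        _ = 2 * (Y : ℝ) ^ (-(1 / 8) : ℝ) := by
            rw [← Real.rpow_mul hY0.le]
            norm_num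
    have h10 : ∑ p ∈ S, (Real.log p / p : ℝ) ≤ S.card * (2 * (Y : ℝ) ^ (-(1 / 8) : ℝ)) := by
      have := Finset.sum_le_card_nsmul S (fun p : ℕ => (Real.log p / p : ℝ)) _ h9
      simpa [nsmul_eq_mul] using this
    have h11 : (2 : ℝ) ≤ S.card * (2 * (Y : ℝ) ^ (-(1 / 8) : ℝ)) := by linarith
    have h12 : (Y : ℝ) ^ (-(1 / 8) : ℝ) * (Y : ℝ) ^ (1 / 8 : ℝ) = 1 := by
      rw [← Real.rpow_add hY0]; norm_num
    have h13 : (Y : ℝ) ^ (1 / 8 : ℝ) ≤ S.card := by
      have h14 : 2 * (Y : ℝ) ^ (1 / 8 : ℝ) ≤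
          S.card * (2 * (Y : ℝ) ^ (-(1 / 8) : ℝ)) * (Y : ℝ) ^ (1 / 8 : ℝ) := by gcongr
      have h15 : S.card * (2 * (Y : ℝ) ^ (-(1 / 8) : ℝ)) * (Y : ℝ) ^ (1 / 8 : ℝ) = 2 * S.card := by
        calc _ = 2 * S.card * ((Y : ℝ) ^ (-(1 / 8) : ℝ) * (Y : ℝ) ^ (1 / 8 : ℝ)) := by ring
          _ = _ := by rw [h12]; ring
      linarith
    refine le_trans (Real.rpow_le_rpow_of_exponent_le hY1 (by norm_num)) h13

end Pool.Agent.H62.GX
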