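import Pool.Agent.H62.GX.Box

set_option autoImplicit false

/-!
# The prime factors of the integers in a box
-/

namespace Pool.Agent.H62.GX

open NumberField Finset NumberField.InfinitePlace
open scoped nonZeroDivisors

variable {E : Type} [Field E] [NumberField E]

theorem log_norm_le {e : ℕ} (he : Module.finrank ℚ E = e) {X : ℝ} {α : 𝓞 E} (hα : α ≠ 0)
    (hX : ∀ w : InfinitePlace E, w (α : E) ≤ X) :
    Real.log (Ideal.absNorm (Ideal.span {α}) : ℝ) ≤ e * Real.log X := by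
  have hαE : (α : E) ≠ 0 := by exact_mod_cast hα
  obtain ⟨w0, hw0⟩ := exists_place_one_le hα
  have hX1 : 1 ≤ X := hw0.trans (hX w0)
  have h1 : (Ideal.absNorm (Ideal.span {α}) : ℝ) = |((Algebra.norm ℚ (α : E) : ℚ) : ℝ)| := by
    rw [Ideal.absNorm_span_singleton, ← Algebra.coe_norm_int, Nat.cast_natAbs]
    push_cast
    rfl
  have h2 : |((Algebra.norm ℚ (α : E) : ℚ) : ℝ)| = ∏ w : InfinitePlace E, w (α : E) ^ mult w := by
    rw [InfinitePlace.prod_eq_abs_norm]
    push_cast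
    rfl
  have h3 : ∏ w : InfinitePlace E, w (α : E) ^ mult w ≤ X ^ e := by
    calc ∏ w : InfinitePlace E, w (α : E) ^ mult w ≤ ∏ w : InfinitePlace E, X ^ mult w :=
          Finset.prod_le_prod (fun w _ => by positivity)
            (fun w _ => pow_le_pow_left₀ (apply_nonneg _ _) (hX w) _)
      _ = X ^ e := by rw [Finset.prod_pow_eq_pow_sum, InfinitePlace.sum_mult_eq, he]
  have h4 : 0 < |((Algebra.norm ℚ (α : E) : ℚ) : ℝ)| := by
    rw [abs_pos, Ne, Rat.cast_eq_zero, Algebra.norm_eq_zero_iff]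
    exact hαE
  rw [h1, ← Real.log_pow]
  apply Real.log_le_log h4
  rw [h2]
  exact h3

theorem sum_log_le {e : ℕ} (he : Module.finrank ℚ E = e) {X : ℝ} {α : 𝓞 E} (hα : α ≠ 0)
    (hX : ∀ w : InfinitePlace E, w (α : E) ≤ X) (T : Finset (Ideal (𝓞 E)))
    (hT : ∀ P ∈ T, P.IsPrime ∧ P ≠ ⊥ ∧ α ∈ P) :
    ∑ P ∈ T, Real.log (Ideal.absNorm P : ℝ) ≤ e * Real.log X := by
  classical
  refine le_trans ?_ (log_norm_le he hα hX)
  have h1 : ∏ P ∈ T, P ∣ Ideal.span {α} := by
    apply Finset.prod_primes_dvd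
    · intro P hP
      exact Ideal.prime_of_isPrime (hT P hP).2.1 (hT P hP).1
    · intro P hP
      rw [Ideal.dvd_iff_le, Ideal.span_le, Set.singleton_subset_iff]
      exact (hT P hP).2.2
  have h2 : Ideal.absNorm (∏ P ∈ T, P) ∣ Ideal.absNorm (Ideal.span {α}) := map_dvd _ h1
  have h3 : Ideal.absNorm (Ideal.span {α}) ≠ 0 := by
    rw [Ne, Ideal.absNorm_eq_zero_iff, Ideal.span_singleton_eq_bot]
    exact hα
  have h4 := Nat.le_of_dvd (Nat.pos_of_ne_zero h3) h2
  have h5 : ∀ P ∈ T, (Ideal.absNorm P : ℝ) ≠ 0 := by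
    intro P hP
    have : Ideal.absNorm P ≠ 0 := by
      rw [Ne, Ideal.absNorm_eq_zero_iff]
      exact (hT P hP).2.1
    exact_mod_cast this
  rw [← Real.log_prod h5]
  have h6 : (∏ P ∈ T, (Ideal.absNorm P : ℝ)) = (Ideal.absNorm (∏ P ∈ T, P) : ℝ) := by
    rw [map_prod]
    push_cast
    rfl
  rw [h6]
  apply Real.log_le_log
  · rw [← h6]
    apply Finset.prod_pos
    intro P hP
    have := h5 P hP
    positivity
  · exact_mod_cast h4

theorem log_sum {e : ℕ} (he : Module.finrank ℚ E = e) {X : ℝ} (hX : 1 ≤ X)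
    (T : Finset (Ideal (𝓞 E))) (hT : ∀ P ∈ T, P.IsPrime ∧ P ≠ ⊥) :
    ∑ P ∈ T, Real.log (Ideal.absNorm P : ℝ) * ((nb P X : ℝ) - 1) ≤
      nb (⊤ : Ideal (𝓞 E)) X * (e * Real.log X) := by
  classical
  set B : Finset (𝓞 E) := (box_finite (⊤ : Ideal (𝓞 E)) X).toFinset with hB
  have hmem : ∀ α, α ∈ B ↔ ∀ w : InfinitePlace E, w (α : E) ≤ X := by
    intro α
    rw [hB, Set.Finite.mem_toFinset]
    exact ⟨fun h => h.2, fun h => ⟨trivial, h⟩⟩
  have hcardB : nb (⊤ : Ideal (𝓞 E)) X = B.card := by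
    rw [nb, Set.ncard_eq_toFinset_card _ (box_finite _ _)]
  have hcardP : ∀ P : Ideal (𝓞 E), (nb P X : ℝ) - 1 =
      ((B.filter fun α => α ∈ P ∧ α ≠ 0).card : ℝ) := by
    intro P
    have h1 : box P X = ((B.filter fun α => α ∈ P : Finset (𝓞 E)) : Set (𝓞 E)) := by
      ext α
      rw [Finset.mem_coe, Finset.mem_filter, hmem]
      exact ⟨fun h => ⟨h.2, h.1⟩, fun h => ⟨h.2, h.1⟩⟩
    have h2 : nb P X = (B.filter fun α => α ∈ P).card := by
      rw [nb, h1, Set.ncard_coe_finset]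
    have h3 : (B.filter fun α => α ∈ P ∧ α ≠ 0) = (B.filter fun α => α ∈ P).erase 0 := by
      ext α
      simp only [Finset.mem_filter, Finset.mem_erase]
      tauto
    have h4 : (0 : 𝓞 E) ∈ B.filter fun α => α ∈ P := by
      rw [Finset.mem_filter, hmem]
      refine ⟨fun w => ?_, P.zero_mem⟩
      simp only [map_zero]
      linarith
    rw [h2, h3, Finset.card_erase_of_mem h4, Nat.cast_sub (Finset.card_pos.2 ⟨0, h4⟩)]
    simp
  have h1 : ∑ P ∈ T, Real.log (Ideal.absNorm P : ℝ) * ((nb P X : ℝ) - 1) =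
      ∑ α ∈ B, ∑ P ∈ T, if α ∈ P ∧ α ≠ 0 then Real.log (Ideal.absNorm P : ℝ) else 0 := by
    rw [Finset.sum_comm]
    refine Finset.sum_congr rfl fun P _ => ?_
    rw [hcardP, ← Finset.sum_filter, Finset.sum_const, nsmul_eq_mul, mul_comm]
  rw [h1, hcardB]
  have h2 : ∀ α ∈ B, (∑ P ∈ T, if α ∈ P ∧ α ≠ 0 then Real.log (Ideal.absNorm P : ℝ) else 0) ≤
      e * Real.log X := by
    intro α hα
    rw [hmem] at hα
    by_cases h0 : α = 0
    · have : (∑ P ∈ T, if α ∈ P ∧ α ≠ 0 then Real.log (Ideal.absNorm P : ℝ) else 0) = 0 := by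
        apply Finset.sum_eq_zero
        intro P _
        rw [if_neg]
        exact fun h => h.2 h0
      rw [this]
      have := Real.log_nonneg hX
      positivity
    · rw [← Finset.sum_filter]
      refine sum_log_le he h0 hα _ ?_
      intro P hP
      rw [Finset.mem_filter] at hP
      exact ⟨(hT P hP.1).1, (hT P hP.1).2, hP.2.1⟩
  refine (Finset.sum_le_card_nsmul _ _ _ h2).trans ?_
  rw [nsmul_eq_mul]

end Pool.Agent.H62.GX
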