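import Pool.Agent.H62.GX.Gal
import Pool.Graph.R_seed8.TH869.EVF.Fin1

set_option autoImplicit false

/-!
# Many primes of degree one in a subfield with large discriminant
-/

namespace Pool.Agent.H62.GX

open NumberField Finset IntermediateField
open Pool.Agent.K1H79.GE (Hs)

theorem all_primes (Y : ℕ) (hY : 243 ≤ Y) : (Y : ℝ) ^ (1 / 20 : ℝ) ≤ (Nat.primesLE Y).card := by
  rw [Nat.primesLE_card_eq_primeCounting]
  have hYr : (243 : ℝ) ≤ Y := by exact_mod_cast hY
  have hY0 : (0 : ℝ) < Y := by linarith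
  have hlog : 0 < Real.log Y := Real.log_pos (by linarith)
  refine le_trans ?_ (Chebyshev.pi_ge Y)
  rw [le_div_iff₀ hlog]
  have h1 : Real.log Y ≤ (Y : ℝ) ^ (1 / 2 : ℝ) / (1 / 2) := Real.log_le_rpow_div hY0.le (by norm_num)
  have h2 : Real.log (Y + 1) ≤ 4 * (Y : ℝ) ^ (1 / 2 : ℝ) := by
    have h3 : Real.log ((Y : ℝ) + 1) ≤ ((Y : ℝ) + 1) ^ (1 / 2 : ℝ) / (1 / 2) :=
      Real.log_le_rpow_div (by linarith) (by norm_num)
    have h4 : ((Y : ℝ) + 1) ^ (1 / 2 : ℝ) ≤ (4 * (Y : ℝ)) ^ (1 / 2 : ℝ) :=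
      Real.rpow_le_rpow (by linarith) (by linarith) (by norm_num)
    have h5 : (4 * (Y : ℝ)) ^ (1 / 2 : ℝ) = 2 * (Y : ℝ) ^ (1 / 2 : ℝ) := by
      rw [Real.mul_rpow (by norm_num) hY0.le, ← Real.sqrt_eq_rpow,
        show (4 : ℝ) = 2 ^ 2 by norm_num, Real.sqrt_sq (by norm_num)]
    linarith
  have h3 : (Y : ℝ) ^ (1 / 20 : ℝ) * Real.log Y ≤ 2 * (Y : ℝ) ^ (11 / 20 : ℝ) := by
    calc (Y : ℝ) ^ (1 / 20 : ℝ) * Real.log Y ≤
        (Y : ℝ) ^ (1 / 20 : ℝ) * ((Y : ℝ) ^ (1 / 2 : ℝ) / (1 / 2)) := by gcongr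
      _ = 2 * ((Y : ℝ) ^ (1 / 20 : ℝ) * (Y : ℝ) ^ (1 / 2 : ℝ)) := by ring
      _ = 2 * (Y : ℝ) ^ (11 / 20 : ℝ) := by rw [← Real.rpow_add hY0]; norm_num
  have h4 : (Y : ℝ) ^ (1 / 2 : ℝ) ≤ (Y : ℝ) ^ (11 / 20 : ℝ) :=
    Real.rpow_le_rpow_of_exponent_le (by linarith) (by norm_num)
  have h5 : 9 * (Y : ℝ) ^ (11 / 20 : ℝ) ≤ Y := by
    have h6 : (9 : ℝ) ≤ (Y : ℝ) ^ (9 / 20 : ℝ) := by
      calc (9 : ℝ) = (243 : ℝ) ^ (2 / 5 : ℝ) := by
            rw [show (243 : ℝ) = 3 ^ (5 : ℝ) by norm_num, ← Real.rpow_mul (by norm_num)]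
            norm_num
        _ ≤ (243 : ℝ) ^ (9 / 20 : ℝ) :=
            Real.rpow_le_rpow_of_exponent_le (by norm_num) (by norm_num)
        _ ≤ (Y : ℝ) ^ (9 / 20 : ℝ) := Real.rpow_le_rpow (by norm_num) hYr (by norm_num)
    calc 9 * (Y : ℝ) ^ (11 / 20 : ℝ) ≤ (Y : ℝ) ^ (9 / 20 : ℝ) * (Y : ℝ) ^ (11 / 20 : ℝ) := by
          gcongr
      _ = Y := by rw [← Real.rpow_add hY0]; norm_num
  have h6 : (2 / 3 : ℝ) ≤ Real.log 2 := by
    have := Real.log_two_gt_d9
    linarith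
  have h7 : (2 / 3 : ℝ) * Y ≤ Y * Real.log 2 := by nlinarith
  linarith

theorem many_primes (n : ℕ) (hn1 : 1 ≤ n) : ∃ C : ℝ, 1 ≤ C ∧
    ∀ (L : Type) [Field L] [NumberField L] [IsGalois ℚ L],
    Module.finrank ℚ L ≤ n → Star (L ≃ₐ[ℚ] L) → ∀ (H : ℝ) (y : ℕ), Hs L H ≠ ⊤ →
      C * |(discr (Hs L H) : ℝ)| ^ C ≤ y → 4 * Real.log |(discr L : ℝ)| ≤ (y : ℝ) ^ (1 / 20 : ℝ) →
      ∃ (E : IntermediateField ℚ L) (S : Finset ℕ), ¬ E ≤ Hs L H ∧
        (∀ p ∈ S, p.Prime ∧ p ≤ y ∧ ¬ p ∣ (discr L).natAbs ∧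
          ∃ P : Ideal (𝓞 E), Ideal.absNorm P = p) ∧
        (y : ℝ) ^ (1 / 20 : ℝ) ≤ 2 * n * S.card := by
  classical
  have hex : ∀ e : ℕ, ∃ C : ℝ, 1 ≤ C ∧ (2 ≤ e → ∀ (E : Type) [Field E] [NumberField E],
      Module.finrank ℚ E = e → ∀ (Y : ℕ), C * |(discr E : ℝ)| ^ C ≤ Y →
      ∃ S : Finset ℕ, (∀ p ∈ S, p.Prime ∧ p ≤ Y ∧ ¬ Split E p) ∧
        (Y : ℝ) ^ (1 / 20 : ℝ) ≤ S.card) := by
    intro e
    by_cases he : 2 ≤ e
    · obtain ⟨C, hC1, hC⟩ := lemmaX e he
      exact ⟨C, hC1, fun _ => hC⟩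
    · exact ⟨1, le_rfl, fun h => absurd h he⟩
  choose f hf1 hf using hex
  have hsum : ∀ e ≤ n, f e ≤ ∑ i ∈ Finset.range (n + 1), f i := by
    intro e he
    exact Finset.single_le_sum (fun i _ => zero_le_one.trans (hf1 i))
      (Finset.mem_range.2 (by omega))
  set C0 : ℝ := ∑ i ∈ Finset.range (n + 1), f i with hC0
  have hC01 : 1 ≤ C0 := (hf1 0).trans (hsum 0 (by omega))
  refine ⟨243 + C0, by linarith, ?_⟩
  intro L _ _ _ hnL hStar H y hF hy hlog
  set F : IntermediateField ℚ L := Hs L H with hFdef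
  have hdF1 : 1 ≤ |(discr F : ℝ)| := by
    have := Int.one_le_abs (discr_ne_zero F)
    exact_mod_cast this
  have hy243 : 243 ≤ y := by
    have h1 : (1 : ℝ) ≤ |(discr F : ℝ)| ^ (243 + C0) := Real.one_le_rpow hdF1 (by linarith)
    have h2 : (243 : ℝ) ≤ y := by nlinarith
    exact_mod_cast h2
  have hN : F.fixingSubgroup.Normal := hs_normal H
  have hN1 : F.fixingSubgroup ≠ ⊥ := by
    intro h
    apply hF
    rw [← IsGalois.fixedField_fixingSubgroup F, h, IntermediateField.fixedField_bot]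
  obtain ⟨M, hMn, hMt, hM⟩ := exists_M hStar F.fixingSubgroup hN1
  -- the Frobenius elements
  have hfr : ∀ p : ℕ, ∃ τ : L ≃ₐ[ℚ] L, p.Prime → ∀ (E : Type) [Field E] [NumberField E]
      (φ : E →+* L), (∀ x : E, τ (φ x) = φ x) → ∃ P : Ideal (𝓞 E), Ideal.absNorm P = p := by
    intro p
    by_cases hp : p.Prime
    · obtain ⟨τ, hτ⟩ := frob_prime L hp
      exact ⟨τ, fun _ => hτ⟩
    · exact ⟨1, fun h => absurd h hp⟩
  choose τ hτ using hfr
  have hτE : ∀ p : ℕ, p.Prime → ∀ E : IntermediateField ℚ L, τ p ∈ E.fixingSubgroup →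
      ∃ P : Ideal (𝓞 E), Ideal.absNorm P = p := by
    intro p hp E hE
    exact hτ p hp E E.val.toRingHom (fun x =>
      (IntermediateField.mem_fixingSubgroup_iff E (τ p)).1 hE x x.2)
  -- the good primes
  have hgood : ∃ S0 : Finset ℕ, (∀ p ∈ S0, p.Prime ∧ p ≤ y ∧ (¬ p ∣ (discr L).natAbs →
      ¬ F.fixingSubgroup ≤ Subgroup.zpowers (τ p))) ∧ (y : ℝ) ^ (1 / 20 : ℝ) ≤ S0.card := by
    by_cases hcase : ∃ τ0 : L ≃ₐ[ℚ] L, F.fixingSubgroup ≤ Subgroup.zpowers τ0
    · obtain ⟨τ0, hτ0⟩ := hcase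
      have hNM : F.fixingSubgroup ≤ M := hτ0.trans (by
        rw [Subgroup.zpowers_le]
        exact hM τ0 hτ0)
      set E : IntermediateField ℚ L := IntermediateField.fixedField M with hE
      have hEF : E ≤ F := by
        rw [← IsGalois.fixedField_fixingSubgroup F]
        exact IntermediateField.fixedField_antitone hNM
      have hfix : E.fixingSubgroup = M := IntermediateField.fixingSubgroup_fixedField M
      have hEgal : IsGalois ℚ E := IsGalois.of_fixedField_normal_subgroup M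
      have hE1 : Module.finrank ℚ E ≠ 1 := by
        intro h
        rw [IntermediateField.finrank_eq_one_iff] at h
        apply hMt
        rw [← hfix, h, IntermediateField.fixingSubgroup_bot]
      have hE2 : 2 ≤ Module.finrank ℚ E := by
        have : 0 < Module.finrank ℚ E := Module.finrank_pos
        omega
      have hEn : Module.finrank ℚ E ≤ n := by
        refine le_trans ?_ hnL
        rw [← Module.finrank_mul_finrank ℚ E L]
        exact Nat.le_mul_of_pos_right _ Module.finrank_pos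
      have hdvd : (discr E).natAbs ∣ (discr L).natAbs := Int.natAbs_dvd_natAbs.2 (discr_dvd_discr E L)
      have hdE1 : 1 ≤ |(discr E : ℝ)| := by
        have := Int.one_le_abs (discr_ne_zero E)
        exact_mod_cast this
      have hdEF : |(discr E : ℝ)| ≤ |(discr F : ℝ)| := by
        let _ : Algebra E F := (IntermediateField.inclusion hEF).toRingHom.toAlgebra
        have h1 : (discr E).natAbs ≤ (discr F).natAbs :=
          Nat.le_of_dvd (Int.natAbs_pos.2 (discr_ne_zero F))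
            (Int.natAbs_dvd_natAbs.2 (discr_dvd_discr E F))
        have h2 : ((discr E).natAbs : ℝ) ≤ ((discr F).natAbs : ℝ) := by exact_mod_cast h1
        rwa [Nat.cast_natAbs, Nat.cast_natAbs, Int.cast_abs, Int.cast_abs] at h2
      obtain ⟨S0, hS0, hS0c⟩ := hf _ hE2 E rfl y (by
        refine le_trans ?_ hy
        have h1 : f (Module.finrank ℚ E) ≤ 243 + C0 := (hsum _ hEn).trans (by linarith)
        have h2 : 0 ≤ f (Module.finrank ℚ E) := zero_le_one.trans (hf1 _)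
        calc f (Module.finrank ℚ E) * |(discr E : ℝ)| ^ (f (Module.finrank ℚ E)) ≤
            (243 + C0) * |(discr E : ℝ)| ^ (243 + C0) := by
              apply mul_le_mul h1 _ (by positivity) (by linarith)
              exact Real.rpow_le_rpow_of_exponent_le hdE1 h1
          _ ≤ (243 + C0) * |(discr F : ℝ)| ^ (243 + C0) := by
              have := Real.rpow_le_rpow (by linarith) hdEF (show 0 ≤ 243 + C0 by linarith)
              exact mul_le_mul_of_nonneg_left this (by linarith))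
      refine ⟨S0, ?_, hS0c⟩
      intro p hp
      obtain ⟨h1, h2, h3⟩ := hS0 p hp
      refine ⟨h1, h2, ?_⟩
      intro hpd hle
      apply h3
      refine split_of_norm h1 (fun h => hpd (h.trans hdvd)) (hτE p h1 E ?_)
      rw [hfix]
      exact hM _ hle
    · push Not at hcase
      refine ⟨Nat.primesLE y, ?_, all_primes y hy243⟩
      intro p hp
      rw [Nat.mem_primesLE] at hp
      exact ⟨hp.2, hp.1, fun _ => hcase _⟩
  obtain ⟨S0, hS0, hS0c⟩ := hgood
  have hdL : (discr L).natAbs ≠ 0 := Int.natAbs_ne_zero.2 (discr_ne_zero L)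
  set S1 : Finset ℕ := S0 \ (discr L).natAbs.primeFactors with hS1
  have hS1c : (y : ℝ) ^ (1 / 20 : ℝ) ≤ 2 * S1.card := by
    have h1 : S0.card ≤ S1.card + (discr L).natAbs.primeFactors.card := by
      have := Finset.le_card_sdiff (discr L).natAbs.primeFactors S0
      rw [← hS1] at this
      omega
    have h2 := Pool.Agent.TH869.EVF.card_primeFactors_le (discr L).natAbs hdL
    have h3 : (S0.card : ℝ) ≤ S1.card + (discr L).natAbs.primeFactors.card := by exact_mod_cast h1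
    have h4 : ((discr L).natAbs : ℝ) = |(discr L : ℝ)| := by
      rw [Nat.cast_natAbs, Int.cast_abs]
    rw [h4] at h2
    linarith
  have hG : Fintype.card (L ≃ₐ[ℚ] L) ≤ n := by
    rw [← Nat.card_eq_fintype_card, IsGalois.card_aut_eq_finrank]
    exact hnL
  -- the most frequent Frobenius element
  have hpig : ∃ g : L ≃ₐ[ℚ] L, (S1.card : ℝ) ≤ n * (S1.filter (fun p => τ p = g)).card := by
    by_contra hc
    push Not at hc
    have h1 : S1.card = ∑ g : L ≃ₐ[ℚ] L, (S1.filter (fun p => τ p = g)).card :=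
      Finset.card_eq_sum_card_fiberwise (fun p _ => Finset.mem_coe.2 (Finset.mem_univ (τ p)))
    have h2 : (n : ℝ) * S1.card < n * S1.card := by
      calc (n : ℝ) * S1.card = ∑ g : L ≃ₐ[ℚ] L, (n : ℝ) * (S1.filter (fun p => τ p = g)).card := by
            rw [← Finset.mul_sum]
            congr 1
            exact_mod_cast h1
        _ < ∑ _g : L ≃ₐ[ℚ] L, (S1.card : ℝ) := by
            apply Finset.sum_lt_sum_of_nonempty Finset.univ_nonempty
            intro g _
            exact hc g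
        _ = Fintype.card (L ≃ₐ[ℚ] L) * S1.card := by
            rw [Finset.sum_const, Finset.card_univ, nsmul_eq_mul]
        _ ≤ n * S1.card := by
            have : (Fintype.card (L ≃ₐ[ℚ] L) : ℝ) ≤ n := by exact_mod_cast hG
            gcongr
    exact lt_irrefl _ h2
  obtain ⟨g, hg⟩ := hpig
  set S : Finset ℕ := S1.filter (fun p => τ p = g) with hS
  have hprop : ∀ p ∈ S, p.Prime ∧ p ≤ y ∧ ¬ p ∣ (discr L).natAbs ∧ τ p = g ∧
      ¬ F.fixingSubgroup ≤ Subgroup.zpowers g := by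
    intro p hp
    rw [hS, Finset.mem_filter, hS1, Finset.mem_sdiff] at hp
    obtain ⟨⟨h1, h2⟩, h3⟩ := hp
    obtain ⟨h4, h5, h6⟩ := hS0 p h1
    have h7 : ¬ p ∣ (discr L).natAbs := by
      intro h
      exact h2 (Nat.mem_primeFactors.2 ⟨h4, h, hdL⟩)
    refine ⟨h4, h5, h7, h3, ?_⟩
    rw [← h3]
    exact h6 h7
  have hnr : (0 : ℝ) < n := by exact_mod_cast hn1
  have hScard : (y : ℝ) ^ (1 / 20 : ℝ) ≤ 2 * n * S.card := by linarith
  have hSne : S.Nonempty := by
    rw [← Finset.card_pos]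
    by_contra hc
    have h0 : S.card = 0 := by omega
    rw [h0] at hScard
    have h1 : (1 : ℝ) ≤ (y : ℝ) ^ (1 / 20 : ℝ) := by
      apply Real.one_le_rpow _ (by norm_num)
      have : 1 ≤ y := by omega
      exact_mod_cast this
    norm_num at hScard
    linarith
  refine ⟨IntermediateField.fixedField (Subgroup.zpowers g), S, ?_, ?_, hScard⟩
  · intro hle
    obtain ⟨p, hp⟩ := hSne
    apply (hprop p hp).2.2.2.2
    have h1 := IntermediateField.fixingSubgroup_antitone hle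
    rwa [IntermediateField.fixingSubgroup_fixedField] at h1
  · intro p hp
    obtain ⟨h1, h2, h3, h4, -⟩ := hprop p hp
    refine ⟨h1, h2, h3, hτE p h1 _ ?_⟩
    rw [IntermediateField.fixingSubgroup_fixedField, h4]
    exact Subgroup.mem_zpowers g

end Pool.Agent.H62.GX
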