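import Pool.Graph.R_pool_sql_team_seeded_3997aac3.Q122.TF.Ev2

set_option autoImplicit false

/-!
# The discriminant bound from an element with known factorisation and small conjugates
-/

namespace Pool.Agent.H62.GX

open NumberField Finset Pool.Agent.TH847.LS Pool.Agent.TH847.LG Pool.Agent.Q122.TF
  NumberField.InfinitePlace IntermediateField
open scoped Classical nonZeroDivisors

variable {E : Type} [Field E] [NumberField E]

theorem no_elt {e : ℕ} (he : Module.finrank ℚ E = e) (he2 : 2 ≤ e)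
    {l : ℕ} (hl : 1 ≤ l) (y : ℕ) {p q : ℕ} (hp : p.Prime) (hq : q.Prime) (hpq : p ≠ q)
    (hpy : p ≤ y) (hqy : q ≤ y) (Qc Rq Qp Rp : Ideal (𝓞 E))
    (hQRq : Qc * Rq = Ideal.span {((q : ℕ) : 𝓞 E)}) (hQq : Ideal.absNorm Qc = q)
    (hnd : ¬ Qc ∣ Rq) (hQRp : Qp * Rp = Ideal.span {((p : ℕ) : 𝓞 E)})
    (hRp : Ideal.absNorm Rp = p ^ (e - 1))
    (z : 𝓞 E) (hz0 : z ≠ 0) (hzspan : Ideal.span {z} = Qc ^ l * Rp ^ l)
    (hLz : ∀ v : InfinitePlace E, Lw v (z : E) ≤ 5 * l) :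
    (discr E).natAbs ≤ (2 * 150 ^ l) ^ (e * (e - 1)) * y ^ (2 * l * (e - 1)) := by
  have he0 : 0 < e := by omega
  have hnr : (0 : ℝ) < e := by exact_mod_cast he0
  have hp1 : 1 ≤ p := hp.one_lt.le
  have hq1 : 1 ≤ q := hq.one_lt.le
  have hzK : (z : E) ≠ 0 := by exact_mod_cast hz0
  -- z generates the field
  have htop : ℚ⟮(z : E)⟯ = ⊤ := by
    refine gen_top z Qc Rq (Rp ^ l) hq hl hQq hQRq hnd ?_ hzspan
    rw [map_pow, hRp]
    exact ((((Nat.coprime_primes hp hq).2 hpq).pow_left _).pow_left _)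
  -- the norm of z
  have hnz : (Algebra.norm ℤ z).natAbs = q ^ l * (p ^ (e - 1)) ^ l := by
    rw [← Ideal.absNorm_span_singleton, hzspan, map_mul, map_pow, map_pow, hQq, hRp]
  have hnz' : |((Algebra.norm ℚ (z : E) : ℚ) : ℝ)| =
      ((q ^ l * (p ^ (e - 1)) ^ l : ℕ) : ℝ) := by
    rw [← Algebra.coe_norm_int, ← hnz, Nat.cast_natAbs]
    push_cast
    rfl
  set X : ℕ := q ^ l * (p ^ (e - 1)) ^ l with hX
  have hX1 : 1 ≤ X := by
    rw [hX]
    exact Nat.mul_pos (pow_pos hq1 _) (pow_pos (pow_pos hp1 _) _)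
  have hXr : (0 : ℝ) < X := by exact_mod_cast hX1
  set B : ℝ := 150 ^ l * (X : ℝ) ^ ((e : ℝ)⁻¹) with hB
  have hB0 : 0 < B := by positivity
  have hlr : (1 : ℝ) ≤ l := by exact_mod_cast hl
  have hwz : ∀ w : InfinitePlace E, w (z : E) ≤ B := by
    intro w
    have h1 := hLz w
    unfold Lw at h1
    rw [hnz', he] at h1
    have h4 : Real.log (w (z : E)) ≤ Real.log B := by
      rw [hB, Real.log_mul (by positivity) (by positivity), Real.log_pow, Real.log_rpow hXr]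
      have h5 : (5 : ℝ) ≤ Real.log 150 := by
        rw [Real.le_log_iff_exp_le (by norm_num)]
        have h6 : Real.exp 1 < 2.7182818286 := Real.exp_one_lt_d9
        have h7 : Real.exp 5 = Real.exp 1 ^ 5 := by
          rw [← Real.exp_nat_mul]; norm_num
        rw [h7]
        have h8 : Real.exp 1 ^ 5 ≤ (2.7182818286 : ℝ) ^ 5 := by
          gcongr
        refine h8.trans ?_
        norm_num
      have h6 : (e : ℝ)⁻¹ * Real.log X = Real.log X / e := by
        rw [inv_mul_eq_div]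
      rw [h6]
      nlinarith
    exact (Real.log_le_log_iff (w_pos w hzK) hB0).mp h4
  have hMJ : ((p ^ l : ℕ) : 𝓞 E) ∈ Rp ^ l := by
    push_cast
    apply Ideal.pow_mem_pow
    have : Ideal.span {((p : ℕ) : 𝓞 E)} ≤ Rp := by
      rw [← hQRp]
      exact Ideal.mul_le_right
    exact this (Ideal.mem_span_singleton_self _)
  have hzJ : z ∈ Rp ^ l := by
    have : Ideal.span {z} ≤ Rp ^ l := by
      rw [hzspan]
      exact Ideal.mul_le_right
    exact this (Ideal.mem_span_singleton_self _)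
  have hdb := disc_bound2 he z htop (p ^ l) (Nat.one_le_pow _ _ hp1) (Rp ^ l) hzJ hMJ hwz
  rw [map_pow, hRp] at hdb
  -- comparison
  have hBn : (2 * B) ^ (e * (e - 1)) = (2 * 150 ^ l) ^ (e * (e - 1)) * (X : ℝ) ^ (e - 1) := by
    have e3 : ((X : ℝ) ^ ((e : ℝ)⁻¹)) ^ e = X := by
      rw [← Real.rpow_natCast, ← Real.rpow_mul hXr.le, inv_mul_cancel₀ hnr.ne', Real.rpow_one]
    rw [hB, ← mul_assoc, mul_pow (2 * 150 ^ l : ℝ), pow_mul ((X : ℝ) ^ ((e : ℝ)⁻¹)), e3]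
  have hDr : |(discr E : ℝ)| = ((discr E).natAbs : ℝ) := by
    rw [Nat.cast_natAbs]
    push_cast
    rfl
  rw [hBn, hDr] at hdb
  have hdb' : (discr E).natAbs * ((p ^ (e - 1)) ^ l) ^ (2 * (e - 1)) ≤
      (p ^ l) ^ (e * (e - 1)) * ((2 * 150 ^ l) ^ (e * (e - 1)) * X ^ (e - 1)) := by
    exact_mod_cast hdb
  obtain ⟨r, rfl⟩ : ∃ r, e = r + 1 := ⟨e - 1, by omega⟩
  simp only [Nat.add_sub_cancel] at hdb' hX ⊢
  have e4 : (p ^ l) ^ ((r + 1) * r) * ((2 * 150 ^ l) ^ ((r + 1) * r) * X ^ r) =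
      ((2 * 150 ^ l) ^ ((r + 1) * r) * (p ^ (l * r) * q ^ (l * r))) *
        ((p ^ r) ^ l) ^ (2 * r) := by
    rw [hX, mul_pow (q ^ l)]
    simp only [← pow_mul]
    have : (p ^ (l * ((r + 1) * r)) : ℕ) * p ^ (r * l * r) =
        p ^ (l * r) * p ^ (r * l * (2 * r)) := by
      rw [← pow_add, ← pow_add]
      congr 1
      ring
    calc _ = ((2 * 150 ^ l) ^ ((r + 1) * r) * q ^ (l * r)) *
          (p ^ (l * ((r + 1) * r)) * p ^ (r * l * r)) := by ring
      _ = _ := by rw [this]; ring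
  rw [e4] at hdb'
  have h5 : (discr E).natAbs ≤ (2 * 150 ^ l) ^ ((r + 1) * r) * (p ^ (l * r) * q ^ (l * r)) :=
    Nat.le_of_mul_le_mul_right hdb' (pow_pos (pow_pos (pow_pos hp1 _) _) _)
  have h6 : p ^ (l * r) * q ^ (l * r) ≤ y ^ (2 * l * r) := by
    calc p ^ (l * r) * q ^ (l * r) ≤ y ^ (l * r) * y ^ (l * r) := by gcongr
      _ = y ^ (2 * l * r) := by rw [← pow_add]; congr 1; ring
  exact h5.trans (Nat.mul_le_mul_left _ h6)

end Pool.Agent.H62.GX
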