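import Pool.Agent.H62.GX.LogSum

set_option autoImplicit false

/-!
# An upper bound for the completely split primes
-/

namespace Pool.Agent.H62.GX

open NumberField Finset NumberField.InfinitePlace IntermediateField
open scoped nonZeroDivisors

variable {E : Type} [Field E] [NumberField E]

/-- there are at least `[E : ℚ]` ideals of norm `p` -/
def Split (E : Type) [Field E] [NumberField E] (p : ℕ) : Prop :=
  Module.finrank ℚ E ≤ Nat.card {P : Ideal (𝓞 E) // Ideal.absNorm P = p}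

theorem split_sum {e : ℕ} (he : Module.finrank ℚ E = e) {Y T H X : ℝ} (N : ℕ)
    (hN : 2 ^ e * √|(discr E : ℝ)| < N) (hT : 0 ≤ T) (hH : 1 ≤ H) (hNT : (N : ℝ) * Y ≤ T ^ e)
    (hprim : ∃ a : 𝓞 E, ℚ⟮(a : E)⟯ = ⊤ ∧ ∀ w : InfinitePlace E, w (a : E) ≤ H) (hX : 1 ≤ X)
    (h1 : (9 / 10 : ℝ) * nb (⊤ : Ideal (𝓞 E)) X ≤
      nb (⊤ : Ideal (𝓞 E)) (X - e * T * H ^ (e - 1)))
    (h2 : 20 * Y ≤ nb (⊤ : Ideal (𝓞 E)) X) (S : Finset ℕ)
    (hS : ∀ p ∈ S, p.Prime ∧ (p : ℝ) ≤ Y ∧ Split E p) :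
    (17 / 20 : ℝ) * ∑ p ∈ S, Real.log p / p ≤ Real.log X := by
  classical
  have he0 : 0 < e := by rw [← he]; exact Module.finrank_pos (R := ℚ) (M := E)
  have her : (0 : ℝ) < e := by exact_mod_cast he0
  set n : ℝ := (nb (⊤ : Ideal (𝓞 E)) X : ℝ) with hn
  rcases S.eq_empty_or_nonempty with rfl | ⟨p0, hp0⟩
  · simp only [Finset.sum_empty, mul_zero]
    exact Real.log_nonneg hX
  have hY2 : 2 ≤ Y := by
    have h3 := hS p0 hp0
    have h4 : (2 : ℝ) ≤ p0 := by exact_mod_cast h3.1.two_le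
    linarith [h3.2.1]
  have hn0 : 0 < n := by linarith
  have hfin : ∀ p : ℕ, {P : Ideal (𝓞 E) | Ideal.absNorm P = p}.Finite :=
    fun p => Ideal.finite_setOfPred_absNorm_eq p
  let F : ℕ → Finset (Ideal (𝓞 E)) := fun p => (hfin p).toFinset
  have hF : ∀ p P, P ∈ F p ↔ Ideal.absNorm P = p := by
    intro p P
    simp [F]
  have hFcard : ∀ p ∈ S, e ≤ (F p).card := by
    intro p hp
    have h3 := (hS p hp).2.2
    unfold Split at h3
    rw [he] at h3
    refine h3.trans (le_of_eq ?_)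
    rw [← Set.ncard_eq_toFinset_card _ (hfin p)]
    rfl
  set 𝒯 : Finset (Ideal (𝓞 E)) := S.biUnion F with h𝒯
  have hprime : ∀ P ∈ 𝒯, P.IsPrime ∧ P ≠ ⊥ := by
    intro P hP
    rw [h𝒯, Finset.mem_biUnion] at hP
    obtain ⟨p, hp, hPp⟩ := hP
    rw [hF] at hPp
    have hpp := (hS p hp).1
    refine ⟨Ideal.isPrime_of_irreducible_absNorm (by rw [hPp]; exact hpp), ?_⟩
    rintro rfl
    rw [Ideal.absNorm_bot] at hPp
    exact hpp.ne_zero hPp.symm
  have hdisj : ∀ p ∈ S, ∀ q ∈ S, p ≠ q → Disjoint (F p) (F q) := by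
    intro p _ q _ hpq
    rw [Finset.disjoint_left]
    intro P hP hQ
    rw [hF] at hP hQ
    exact hpq (hP.symm.trans hQ)
  have hmain := log_sum he hX 𝒯 hprime
  rw [h𝒯, Finset.sum_biUnion hdisj] at hmain
  have hlow : ∀ p ∈ S, e * ((17 / 20 : ℝ) * n * (Real.log p / p)) ≤
      ∑ P ∈ F p, Real.log (Ideal.absNorm P : ℝ) * ((nb P X : ℝ) - 1) := by
    intro p hp
    obtain ⟨hpp, hpY, -⟩ := hS p hp
    have hpr : (0 : ℝ) < p := by exact_mod_cast hpp.pos
    have hlog : 0 ≤ Real.log p := Real.log_natCast_nonneg p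
    have h3 : ∀ P ∈ F p, (17 / 20 : ℝ) * n * (Real.log p / p) ≤
        Real.log (Ideal.absNorm P : ℝ) * ((nb P X : ℝ) - 1) := by
      intro P hP
      rw [hF] at hP
      have hP0 : P ≠ ⊥ := by
        rintro rfl
        rw [Ideal.absNorm_bot] at hP
        exact hpp.ne_zero hP.symm
      have h4 := nb_coset P hP0 (fun x => cover he P hP0 N hN hT hH (by
        rw [hP]
        refine le_trans ?_ hNT
        gcongr) hprim x) (X - e * T * H ^ (e - 1))
      rw [sub_add_cancel, hP] at h4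
      have h5 : (nb (⊤ : Ideal (𝓞 E)) (X - e * T * H ^ (e - 1)) : ℝ) ≤ p * nb P X := by
        exact_mod_cast h4
      have h6 : (9 / 10 : ℝ) * n / p ≤ nb P X := by
        rw [div_le_iff₀ hpr, mul_comm (nb P X : ℝ)]
        exact h1.trans h5
      have h7 : 1 ≤ (1 / 20 : ℝ) * n / p := by
        rw [le_div_iff₀ hpr]
        linarith
      have h8 : (17 / 20 : ℝ) * n / p ≤ (nb P X : ℝ) - 1 := by
        have : (17 / 20 : ℝ) * n / p = (9 / 10 : ℝ) * n / p - (1 / 20 : ℝ) * n / p := by ring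
        linarith
      rw [hP]
      calc (17 / 20 : ℝ) * n * (Real.log p / p) = Real.log p * ((17 / 20 : ℝ) * n / p) := by ring
        _ ≤ _ := mul_le_mul_of_nonneg_left h8 hlog
    have h4 := Finset.card_nsmul_le_sum _ _ _ h3
    rw [nsmul_eq_mul] at h4
    refine le_trans ?_ h4
    have h5 : (e : ℝ) ≤ (F p).card := by exact_mod_cast hFcard p hp
    have h6 : 0 ≤ (17 / 20 : ℝ) * n * (Real.log p / p) := by positivity
    exact mul_le_mul_of_nonneg_right h5 h6
  have h3 := (Finset.sum_le_sum hlow).trans hmain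
  rw [← Finset.mul_sum, ← Finset.mul_sum] at h3
  have h4 : (e * n) * ((17 / 20 : ℝ) * ∑ p ∈ S, Real.log p / p) ≤ (e * n) * Real.log X := by
    calc (e * n) * ((17 / 20 : ℝ) * ∑ p ∈ S, Real.log p / p) =
        e * ((17 / 20 : ℝ) * n * ∑ p ∈ S, Real.log p / p) := by ring
      _ ≤ n * (e * Real.log X) := h3
      _ = _ := by ring
  exact le_of_mul_le_mul_left h4 (by positivity)

/-- pigeonhole for a growing function -/
theorem exists_scale (f : ℝ → ℕ) (X0 R : ℝ) (h0 : 1 ≤ f X0) (J : ℕ)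
    (hJ : (f (X0 + J * R) : ℝ) < (10 / 9 : ℝ) ^ J) :
    ∃ j : ℕ, 1 ≤ j ∧ j ≤ J ∧ (9 / 10 : ℝ) * f (X0 + j * R) ≤ f (X0 + j * R - R) := by
  by_contra hcon
  push Not at hcon
  have h1 : ∀ j : ℕ, j ≤ J → (10 / 9 : ℝ) ^ j ≤ f (X0 + j * R) := by
    intro j
    induction j with
    | zero => intro _; simpa using h0
    | succ j ih =>
      intro hj
      have h2 := ih (by omega)
      have h3 := hcon (j + 1) (by omega) hj
      have h4 : X0 + ((j + 1 : ℕ) : ℝ) * R - R = X0 + j * R := by push_cast; ring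
      rw [h4] at h3
      rw [pow_succ]
      linarith
  exact absurd (h1 J le_rfl) (not_le.2 hJ)

end Pool.Agent.H62.GX
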